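import Pool.Agent.Q241.MZ.Main

set_option autoImplicit false

/-! Uniform bounds for the derivatives of zeta to the right of the line `Re s = 1`. -/

namespace Pool.Agent.Q275.ZM

open Complex Set Filter Topology Q241.MZ

/-- telescoping -/
theorem tele {ε : ℝ} (hε : 0 < ε) {n : ℕ} (hn : 1 ≤ n) :
    1 / ((n + 1 : ℕ) : ℝ) ^ (1 + ε) ≤ 1 / ε * ((n : ℝ) ^ (-ε) - ((n + 1 : ℕ) : ℝ) ^ (-ε)) := by
  have h0 : (0 : ℝ) < n := by exact_mod_cast hn
  have h1 : (0 : ℝ) < ((n + 1 : ℕ) : ℝ) := by positivity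
  have e1 : 1 / ((n + 1 : ℕ) : ℝ) ^ (1 + ε) = ((n + 1 : ℕ) : ℝ) ^ (-ε) * (1 / ((n + 1 : ℕ) : ℝ)) := by
    rw [one_div, ← Real.rpow_neg h1.le, show -(1 + ε) = -ε + -1 by ring, Real.rpow_add h1, Real.rpow_neg_one, one_div]
  have e2 : (n : ℝ) ^ (-ε) = ((n + 1 : ℕ) : ℝ) ^ (-ε) * (((n + 1 : ℕ) : ℝ) / n) ^ ε := by
    rw [Real.div_rpow h1.le h0.le, ← mul_div_assoc, ← Real.rpow_add h1, neg_add_cancel, Real.rpow_zero,
      Real.rpow_neg h0.le, one_div]
  have e3 : 1 + ε * (1 / ((n + 1 : ℕ) : ℝ)) ≤ (((n + 1 : ℕ) : ℝ) / n) ^ ε := by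
    rw [Real.rpow_def_of_pos (by positivity)]
    have h2 := Real.one_sub_inv_le_log_of_pos (show 0 < ((n + 1 : ℕ) : ℝ) / n by positivity)
    have h3 : 1 - (((n + 1 : ℕ) : ℝ) / n)⁻¹ = 1 / ((n + 1 : ℕ) : ℝ) := by
      push_cast
      field_simp
      ring
    rw [h3] at h2
    have h4 := Real.add_one_le_exp (Real.log (((n + 1 : ℕ) : ℝ) / n) * ε)
    have h5 := mul_le_mul_of_nonneg_right h2 hε.le
    linarith
  have h6 : (0 : ℝ) < ((n + 1 : ℕ) : ℝ) ^ (-ε) := Real.rpow_pos_of_pos h1 _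
  rw [e1, e2]
  have h7 : ((n + 1 : ℕ) : ℝ) ^ (-ε) * (ε * (1 / ((n + 1 : ℕ) : ℝ))) ≤
      ((n + 1 : ℕ) : ℝ) ^ (-ε) * ((((n + 1 : ℕ) : ℝ) / n) ^ ε - 1) := mul_le_mul_of_nonneg_left (by linarith) h6.le
  calc ((n + 1 : ℕ) : ℝ) ^ (-ε) * (1 / ((n + 1 : ℕ) : ℝ))
      = 1 / ε * (((n + 1 : ℕ) : ℝ) ^ (-ε) * (ε * (1 / ((n + 1 : ℕ) : ℝ)))) := by field_simp
    _ ≤ 1 / ε * (((n + 1 : ℕ) : ℝ) ^ (-ε) * ((((n + 1 : ℕ) : ℝ) / n) ^ ε - 1)) :=
        mul_le_mul_of_nonneg_left h7 (by positivity)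
    _ = _ := by ring

/-- blocks of the series of `n^{-1-ε}` -/
theorem block_le {ε : ℝ} (hε : 0 < ε) {N : ℕ} (hN : 1 ≤ N) (M : ℕ) :
    ∑ i ∈ Finset.range M, 1 / ((i + N + 1 : ℕ) : ℝ) ^ (1 + ε) ≤ 1 / ε * ((N : ℝ) ^ (-ε) - ((M + N : ℕ) : ℝ) ^ (-ε)) := by
  induction M with
  | zero => simp
  | succ M ih =>
    rw [Finset.sum_range_succ]
    have h1 := tele hε (n := M + N) (by omega)
    have e : ((M + 1 + N : ℕ) : ℝ) = ((M + N + 1 : ℕ) : ℝ) := by push_cast; ring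
    rw [e]
    push_cast at h1 ih ⊢
    linarith

theorem tail_le {ε : ℝ} (hε : 0 < ε) {N : ℕ} (hN : 1 ≤ N) :
    ∑' i : ℕ, 1 / ((i + N + 1 : ℕ) : ℝ) ^ (1 + ε) ≤ 1 / ε * (N : ℝ) ^ (-ε) := by
  apply Real.tsum_le_of_sum_range_le
  · intro i; positivity
  · intro M
    refine (block_le hε hN M).trans ?_
    apply mul_le_mul_of_nonneg_left _ (by positivity)
    have : 0 ≤ ((M + N : ℕ) : ℝ) ^ (-ε) := by positivity
    linarith

theorem summ_pow {ε : ℝ} (hε : 0 < ε) : Summable fun n : ℕ => 1 / (n : ℝ) ^ (1 + ε) :=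
  Real.summable_one_div_nat_rpow.2 (by linarith)

theorem zeta_real_le {ε : ℝ} (hε : 0 < ε) : ∑' n : ℕ, 1 / (n : ℝ) ^ (1 + ε) ≤ 1 + 1 / ε := by
  have h1 := (summ_pow hε).sum_add_tsum_nat_add 2
  rw [← h1, Finset.sum_range_succ, Finset.sum_range_one]
  have h2 : 1 / ((0 : ℕ) : ℝ) ^ (1 + ε) = 0 := by
    rw [Nat.cast_zero, Real.zero_rpow (by linarith), div_zero]
  have h3 : 1 / ((1 : ℕ) : ℝ) ^ (1 + ε) = 1 := by simp
  rw [h2, h3]
  have h4 := tail_le hε (N := 1) le_rfl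
  have h5 : ((1 : ℕ) : ℝ) ^ (-ε) = 1 := by simp
  rw [h5, mul_one] at h4
  have h6 : ∑' i : ℕ, 1 / ((i + 2 : ℕ) : ℝ) ^ (1 + ε) = ∑' i : ℕ, 1 / ((i + 1 + 1 : ℕ) : ℝ) ^ (1 + ε) := rfl
  linarith

theorem co_nonneg (k n : ℕ) : 0 ≤ co k n := by
  unfold co
  positivity

/-- powers of the logarithm -/
theorem co_le (k n : ℕ) {lam : ℝ} (hl : 0 < lam) (hn : 1 ≤ n) :
    co k n ≤ (k.factorial : ℝ) * (lam ^ k)⁻¹ * (n : ℝ) ^ lam := by
  have h0 : (0 : ℝ) < n := by exact_mod_cast hn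
  have h1 : 0 ≤ Real.log n := Real.log_natCast_nonneg n
  have h2 := Real.pow_div_factorial_le_exp (lam * Real.log n) (by positivity) k
  have h3 : Real.exp (lam * Real.log n) = (n : ℝ) ^ lam := by
    rw [Real.rpow_def_of_pos h0, mul_comm]
  rw [h3, mul_pow, div_le_iff₀ (by positivity)] at h2
  unfold co
  rw [show (k.factorial : ℝ) * (lam ^ k)⁻¹ * (n : ℝ) ^ lam = ((n : ℝ) ^ lam * k.factorial) / lam ^ k by
    rw [div_eq_mul_inv]; ring, le_div_iff₀ (by positivity)]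
  linarith

/-- a term of the Dirichlet series -/
theorem term_le (k n : ℕ) {lam x : ℝ} (hl : 0 < lam) (hx : 1 + x ≠ 0) :
    co k n / (n : ℝ) ^ (1 + x) ≤ (k.factorial : ℝ) * (lam ^ k)⁻¹ * (1 / (n : ℝ) ^ (1 + (x - lam))) := by
  rcases Nat.eq_zero_or_pos n with hn | hn
  · subst hn
    rw [Nat.cast_zero, Real.zero_rpow hx, div_zero]
    have : (0 : ℝ) ≤ (0 : ℝ) ^ (1 + (x - lam)) := Real.rpow_nonneg le_rfl _
    positivity
  · have h0 : (0 : ℝ) < n := by exact_mod_cast hn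
    have h1 := co_le k n hl hn
    have h2 : (0 : ℝ) < (n : ℝ) ^ (1 + x) := Real.rpow_pos_of_pos h0 _
    rw [div_le_iff₀ h2]
    refine h1.trans (le_of_eq ?_)
    have h3 : 1 / (n : ℝ) ^ (1 + (x - lam)) * (n : ℝ) ^ (1 + x) = (n : ℝ) ^ lam := by
      rw [one_div, ← Real.rpow_neg h0.le, ← Real.rpow_add h0]
      congr 1
      ring
    rw [mul_assoc _ (1 / (n : ℝ) ^ (1 + (x - lam))), h3]

/-- the majorant -/
noncomputable def Ak (k : ℕ) : ℝ := Real.exp 1 * ((k + 1).factorial : ℝ)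

theorem Ak_pos (k : ℕ) : 0 < Ak k := by
  unfold Ak
  positivity

theorem sum_le (k : ℕ) (hk : 1 ≤ k) {x : ℝ} (hx : 0 < x) :
    ∑' n : ℕ, co k n / (n : ℝ) ^ (1 + x) ≤ Ak k * (1 + x) / x ^ (k + 1) := by
  have hk0 : (0 : ℝ) < k := by exact_mod_cast hk
  set lam : ℝ := x * k / (k + 1) with hlam
  have hl : 0 < lam := by positivity
  have hxl : x - lam = x / (k + 1) := by rw [hlam]; field_simp; ring
  have hε : 0 < x - lam := by rw [hxl]; positivity
  have h1 : ∑' n : ℕ, co k n / (n : ℝ) ^ (1 + x) ≤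
      ∑' n : ℕ, (k.factorial : ℝ) * (lam ^ k)⁻¹ * (1 / (n : ℝ) ^ (1 + (x - lam))) :=
    Summable.tsum_le_tsum (fun n => term_le k n hl (by linarith)) (summable_co k (by linarith))
      ((summ_pow hε).mul_left _)
  rw [tsum_mul_left] at h1
  refine h1.trans ?_
  have h2 := zeta_real_le hε
  have h3 : (lam ^ k)⁻¹ ≤ Real.exp 1 / x ^ k := by
    have h4 : lam⁻¹ = (1 + 1 / (k : ℝ)) / x := by rw [hlam]; field_simp
    rw [← inv_pow, h4, div_pow]
    apply div_le_div_of_nonneg_right _ (by positivity)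
    have h5 := Real.add_one_le_exp (1 / (k : ℝ))
    calc (1 + 1 / (k : ℝ)) ^ k ≤ (Real.exp (1 / (k : ℝ))) ^ k := by
          apply pow_le_pow_left₀ (by positivity)
          linarith
      _ = Real.exp 1 := by
          rw [← Real.exp_nat_mul]
          congr 1
          field_simp
  have h4 : 1 + 1 / (x - lam) = (x + k + 1) / x := by
    rw [hxl]
    field_simp
    ring
  rw [h4] at h2
  have h5 : (x + k + 1) / x ≤ (k + 1) * (1 + x) / x := by
    apply div_le_div_of_nonneg_right _ hx.le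
    nlinarith
  calc (k.factorial : ℝ) * (lam ^ k)⁻¹ * ∑' n : ℕ, 1 / (n : ℝ) ^ (1 + (x - lam))
      ≤ (k.factorial : ℝ) * (Real.exp 1 / x ^ k) * ((k + 1) * (1 + x) / x) := by
        apply mul_le_mul _ (h2.trans h5) (tsum_nonneg fun n => by positivity) (by positivity)
        exact mul_le_mul_of_nonneg_left h3 (by positivity)
    _ = Ak k * (1 + x) / x ^ (k + 1) := by
        unfold Ak
        rw [Nat.factorial_succ, pow_succ]
        push_cast
        field_simp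

theorem norm_D_le_sum (k : ℕ) {x : ℝ} (hx : 1 < x) (t : ℝ) : ‖D k ⟨x, t⟩‖ ≤ ∑' n : ℕ, co k n / (n : ℝ) ^ x := by
  rw [D_hasSum k hx, norm_mul, norm_pow, norm_neg, norm_one, one_pow, one_mul]
  have hle : ∀ n : ℕ, ‖((co k n / (n : ℝ) ^ x : ℝ) : ℂ) * Complex.exp (-(t * Real.log n) * I)‖ = co k n / (n : ℝ) ^ x := by
    intro n
    have h3 : ‖Complex.exp (-(t * Real.log n) * I)‖ = 1 := by
      have := Complex.norm_exp_ofReal_mul_I (-(t * Real.log n))
      rw [Complex.ofReal_neg, Complex.ofReal_mul] at this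
      exact this
    have hc : 0 ≤ co k n := co_nonneg k n
    rw [norm_mul, h3, mul_one, Complex.norm_real, Real.norm_eq_abs, abs_of_nonneg (by positivity)]
  have hs : Summable fun n : ℕ => ‖((co k n / (n : ℝ) ^ x : ℝ) : ℂ) * Complex.exp (-(t * Real.log n) * I)‖ := by
    simp only [hle]
    exact summable_co k hx
  refine (norm_tsum_le_tsum_norm hs).trans (le_of_eq ?_)
  simp only [hle]

/-- the bound by the Dirichlet series -/
theorem D_right (k : ℕ) (hk : 1 ≤ k) {x : ℝ} (hx : 0 < x) (t : ℝ) :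
    ‖D k ⟨1 + x, t⟩‖ ≤ Ak k * (1 + x) / x ^ (k + 1) :=
  (norm_D_le_sum k (by linarith) t).trans (sum_le k hk hx)

/-- uniform growth -/
theorem growthU : ∃ C B : ℝ, 1 ≤ C ∧ 0 < B ∧ ∀ (l : ℕ) (w : ℂ), 0 ≤ w.re → 2 ≤ |w.im| →
    ‖D l w‖ ≤ l.factorial * (C * (1 + |w.im|) ^ B) := by
  obtain ⟨C, B, hC, hB, h⟩ := growth_zero 1
  refine ⟨C * 2 ^ B, B, ?_, hB, ?_⟩
  · have h2 : (1 : ℝ) ≤ 2 ^ B := Real.one_le_rpow (by norm_num) hB.le
    nlinarith
  intro l w h1 h2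
  have hk : ∀ z ∈ Metric.closedBall w 1, z ≠ 1 ∧ ‖riemannZeta z‖ ≤ C * (2 ^ B * (1 + |w.im|) ^ B) := by
    intro z hz
    rw [mem_closedBall_iff_norm] at hz
    have h3 : |z.im - w.im| ≤ 1 := by
      have := Complex.abs_im_le_norm (z - w)
      rw [sub_im] at this
      linarith
    have h4 : |z.re - w.re| ≤ 1 := by
      have := Complex.abs_re_le_norm (z - w)
      rw [sub_re] at this
      linarith
    have h5 : 1 ≤ |z.im| := by
      have := abs_sub_abs_le_abs_sub w.im z.im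
      rw [abs_sub_comm] at this
      linarith
    have h6 : |z.im| ≤ |w.im| + 1 := by
      have := abs_sub_abs_le_abs_sub z.im w.im
      linarith
    constructor
    · rintro rfl
      norm_num at h5
    · refine (h z ?_ h5).trans ?_
      · rw [abs_le] at h4; linarith [h4.1]
      · have hone : (0 : ℝ) ≤ 1 + |w.im| := by linarith [abs_nonneg w.im]
        rw [← Real.mul_rpow (by norm_num) hone]
        gcongr
        linarith [abs_nonneg w.im]
  have hd : DiffContOnCl ℂ riemannZeta (Metric.ball w 1) := by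
    refine ⟨fun z hz => (differentiableAt_riemannZeta
      (hk z (Metric.ball_subset_closedBall hz)).1).differentiableWithinAt, fun z hz => ?_⟩
    rw [closure_ball _ one_ne_zero] at hz
    exact (differentiableAt_riemannZeta (hk z hz).1).continuousAt.continuousWithinAt
  have h3 := Complex.norm_iteratedDeriv_le_of_forall_mem_sphere_norm_le l one_pos hd
    (fun z hz => (hk z (Metric.sphere_subset_closedBall hz)).2)
  refine h3.trans (le_of_eq ?_)
  rw [one_pow, div_one]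
  ring

end Pool.Agent.Q275.ZM
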