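import Mathlib

set_option autoImplicit false

/-! A comparison lemma in a rectangle with a singular majorant at the corner. -/

namespace Pool.Agent.Q275.ZM

open Complex Set Filter Topology

/-- maximum principle in a closed rectangle -/
theorem rect_max' {a b c d : ℝ} (hab : a < b) (hcd : c < d) {f : ℂ → ℂ}
    (hf : DifferentiableOn ℂ f (Ioo a b ×ℂ Ioo c d)) (hfc : ContinuousOn f (Icc a b ×ℂ Icc c d)) {C : ℝ}
    (hl : ∀ y ∈ Icc c d, ‖f ⟨a, y⟩‖ ≤ C) (hr : ∀ y ∈ Icc c d, ‖f ⟨b, y⟩‖ ≤ C)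
    (hb : ∀ x ∈ Icc a b, ‖f ⟨x, c⟩‖ ≤ C) (ht : ∀ x ∈ Icc a b, ‖f ⟨x, d⟩‖ ≤ C)
    {z : ℂ} (hz : z ∈ Icc a b ×ℂ Icc c d) : ‖f z‖ ≤ C := by
  have hcl : closure (Ioo a b ×ℂ Ioo c d) = Icc a b ×ℂ Icc c d := by
    rw [closure_reProdIm, closure_Ioo hab.ne, closure_Ioo hcd.ne]
  have hbd : Bornology.IsBounded (Ioo a b ×ℂ Ioo c d) :=
    (Metric.isBounded_Ioo a b).reProdIm (Metric.isBounded_Ioo c d)
  have hdiff : DiffContOnCl ℂ f (Ioo a b ×ℂ Ioo c d) := ⟨hf, by rw [hcl]; exact hfc⟩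
  refine Complex.norm_le_of_forall_mem_frontier_norm_le hbd hdiff ?_ (by rw [hcl]; exact hz)
  intro w hw
  have hw1 : w ∈ Icc a b ×ℂ Icc c d := by rw [← hcl]; exact frontier_subset_closure hw
  have hopen : IsOpen (Ioo a b ×ℂ Ioo c d) := isOpen_Ioo.reProdIm isOpen_Ioo
  have hw2 : w ∉ Ioo a b ×ℂ Ioo c d := by
    intro h
    rw [hopen.frontier_eq] at hw
    exact hw.2 h
  rw [mem_reProdIm] at hw1 hw2
  obtain ⟨⟨h1, h2⟩, h3, h4⟩ := hw1
  rcases h1.eq_or_lt with h | h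
  · have : w = ⟨a, w.im⟩ := Complex.ext h.symm rfl
    rw [this]; exact hl _ ⟨h3, h4⟩
  rcases h2.eq_or_lt with h' | h'
  · have : w = ⟨b, w.im⟩ := Complex.ext h' rfl
    rw [this]; exact hr _ ⟨h3, h4⟩
  rcases h3.eq_or_lt with h'' | h''
  · have : w = ⟨w.re, c⟩ := Complex.ext rfl h''.symm
    rw [this]; exact hb _ ⟨h1, h2⟩
  rcases h4.eq_or_lt with h''' | h'''
  · have : w = ⟨w.re, d⟩ := Complex.ext rfl h'''
    rw [this]; exact ht _ ⟨h1, h2⟩
  · exact absurd ⟨⟨h, h'⟩, h'', h'''⟩ hw2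

/-- the exponential factor -/
noncomputable def Ef (p μ c : ℝ) (z : ℂ) : ℂ :=
  Complex.exp (p * ((Complex.log z + Real.log μ) + (I / Real.pi) * (Complex.log z + Real.log μ) ^ 2) + c * z ^ 2)

/-- the exponent -/
noncomputable def vf (z : ℂ) : ℝ := 1 - 2 * z.arg / Real.pi

theorem norm_Ef (p μ c : ℝ) (z : ℂ) :
    ‖Ef p μ c z‖ = Real.exp (p * ((Real.log ‖z‖ + Real.log μ) * vf z) + c * (z.re ^ 2 - z.im ^ 2)) := by
  unfold Ef vf
  rw [Complex.norm_exp]
  congr 1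
  set L : ℂ := Complex.log z + Real.log μ with hL
  have hre : L.re = Real.log ‖z‖ + Real.log μ := by
    rw [hL, add_re, Complex.log_re, ofReal_re]
  have him : L.im = z.arg := by
    rw [hL, add_im, Complex.log_im, ofReal_im, add_zero]
  have h1 : (((I / Real.pi) * L ^ 2 : ℂ)).re = -(2 * L.re * L.im) / Real.pi := by
    have : (I / Real.pi) * L ^ 2 = I * ((L ^ 2) * ((1 / Real.pi : ℝ) : ℂ)) := by
      push_cast
      ring
    rw [this, I_mul_re, mul_comm (L ^ 2), im_ofReal_mul, sq, mul_im]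
    ring
  have h2 : ((c : ℂ) * z ^ 2).re = c * (z.re ^ 2 - z.im ^ 2) := by
    rw [re_ofReal_mul, sq, mul_re]
    ring
  rw [add_re, h2, re_ofReal_mul, add_re, h1, ← hre, ← him]
  have := Real.pi_ne_zero
  field_simp
  ring

theorem vf_nonneg {z : ℂ} (h : 0 ≤ z.re) : 0 ≤ vf z := by
  unfold vf
  have h1 : |z.arg| ≤ Real.pi / 2 := abs_arg_le_pi_div_two_iff.2 h
  have h2 := (abs_le.1 h1).2
  rw [sub_nonneg, div_le_one Real.pi_pos]
  linarith

theorem vf_le_one {z : ℂ} (h : 0 ≤ z.im) : vf z ≤ 1 := by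
  unfold vf
  have h1 : 0 ≤ z.arg := arg_nonneg_iff.2 h
  have := Real.pi_pos
  have : 0 ≤ 2 * z.arg / Real.pi := by positivity
  linarith

/-- Jordan -/
theorem vf_le {z : ℂ} (h0 : z ≠ 0) (h : 0 ≤ z.re) (h' : 0 ≤ z.im) : vf z ≤ z.re / ‖z‖ := by
  have h1 : |z.arg| ≤ Real.pi / 2 := abs_arg_le_pi_div_two_iff.2 h
  have h2 := (abs_le.1 h1).2
  have h3 : 0 ≤ z.arg := arg_nonneg_iff.2 h'
  have h4 := Real.mul_le_sin (x := Real.pi / 2 - z.arg) (by linarith) (by linarith)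
  rw [Real.sin_pi_div_two_sub, Complex.cos_arg h0] at h4
  refine le_trans (le_of_eq ?_) h4
  unfold vf
  have := Real.pi_ne_zero
  field_simp

/-- lower bound of the exponent -/
theorem le_vf {z : ℂ} (h0 : z ≠ 0) (h : 0 ≤ z.re) : 2 / Real.pi * (z.re / ‖z‖) ≤ vf z := by
  have h1 : |z.arg| ≤ Real.pi / 2 := abs_arg_le_pi_div_two_iff.2 h
  have h2 := (abs_le.1 h1).2
  have h4 := Real.sin_le (x := Real.pi / 2 - z.arg) (by linarith)
  rw [Real.sin_pi_div_two_sub, Complex.cos_arg h0] at h4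
  have h5 := mul_le_mul_of_nonneg_left h4 (show 0 ≤ 2 / Real.pi by positivity)
  refine h5.trans (le_of_eq ?_)
  unfold vf
  have := Real.pi_ne_zero
  field_simp

theorem neg_mul_log_le {v : ℝ} (h : 0 < v) : -(v * Real.log v) ≤ 1 - v := by
  have h1 := Real.one_sub_inv_le_log_of_pos h
  have h2 := mul_le_mul_of_nonneg_left h1 h.le
  have h3 : v * (1 - v⁻¹) = v - 1 := by field_simp
  linarith

theorem corner (F : ℂ → ℂ) {p μ c R M U A : ℝ} (hp : 0 < p) (hμ : 0 < μ) (hμ3 : 1 ≤ Real.log (3 * μ)) (hc : 0 ≤ c)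
    (hR : 0 < R) (hM : 0 ≤ M) (hA : 0 ≤ A) (hU : 0 ≤ U)
    (hF : ∀ z ∈ Icc (0 : ℝ) 3 ×ℂ Icc 0 R, DifferentiableAt ℂ F z) (h1 : ∀ y ∈ Icc (0 : ℝ) R, ‖F ⟨0, y⟩‖ ≤ M)
    (h2 : ∀ x y : ℝ, 0 < x → x ≤ 3 → 0 ≤ y → y ≤ R → ‖F ⟨x, y⟩‖ ≤ A * (1 + x) * x ^ (-p)) (hMA : M = A * μ ^ p)
    (h3 : ∀ x ∈ Icc (0 : ℝ) 3, ‖F ⟨x, R⟩‖ ≤ U)
    (h4 : U * Real.exp (p * (|Real.log (μ * (R + 3))| * (3 / R))) ≤ M * Real.exp (c * R ^ 2))
    {x y : ℝ} (hx : 0 < x) (hx3 : x ≤ 3) (hy : 0 ≤ y) (hyR : y ≤ R) :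
    ‖F ⟨x, y⟩‖ * Real.exp (p * ((Real.log ‖(⟨x, y⟩ : ℂ)‖ + Real.log μ) * vf ⟨x, y⟩) + c * (x ^ 2 - y ^ 2)) ≤
      M * Real.exp (9 * c) * ‖1 + (⟨x, y⟩ : ℂ)‖ := by
  -- the auxiliary function
  have key : ∀ η : ℝ, 0 < η → ∀ z ∈ Icc (0 : ℝ) 3 ×ℂ Icc 0 R,
      ‖F z * (z / (z + η)) * Ef p μ c z / (1 + z)‖ ≤ M * Real.exp (9 * c) := by
    intro η hη z hz
    have hre1 : ∀ w : ℂ, 0 ≤ w.re → w + η ≠ 0 := by
      intro w hw h
      have := congrArg Complex.re h
      rw [add_re, ofReal_re, zero_re] at this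
      linarith
    have hre2 : ∀ w : ℂ, 0 ≤ w.re → 1 + w ≠ 0 := by
      intro w hw h
      have := congrArg Complex.re h
      rw [add_re, one_re, zero_re] at this
      linarith
    have hn1 : ∀ w : ℂ, 0 ≤ w.re → ‖w / (w + η)‖ ≤ 1 := by
      intro w hw
      rw [norm_div, div_le_one (norm_pos_iff.2 (hre1 w hw))]
      rw [← sq_le_sq₀ (norm_nonneg _) (norm_nonneg _), ← Complex.normSq_eq_norm_sq, ← Complex.normSq_eq_norm_sq,
        Complex.normSq_apply, Complex.normSq_apply, add_re, add_im, ofReal_re, ofReal_im]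
      nlinarith
    have hn2 : ∀ w : ℂ, 0 ≤ w.re → 1 + w.re ≤ ‖1 + w‖ := by
      intro w hw
      have := Complex.re_le_norm (1 + w)
      rwa [add_re, one_re] at this
    have hbound : ∀ w : ℂ, 0 ≤ w.re → ‖F w * (w / (w + η)) * Ef p μ c w / (1 + w)‖ ≤
        ‖F w‖ * ‖w / (w + η)‖ * ‖Ef p μ c w‖ / (1 + w.re) := by
      intro w hw
      rw [norm_div, norm_mul, norm_mul]
      have : 0 < 1 + w.re := by linarith
      exact div_le_div_of_nonneg_left (by positivity) this (hn2 w hw)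
    have hsl : ∀ w : ℂ, 0 ≤ w.re → 0 ≤ w.im → w ≠ 0 → w ∈ slitPlane := by
      intro w a b hne
      rw [Complex.mem_slitPlane_iff]
      by_contra hcon
      push Not at hcon
      apply hne
      apply Complex.ext
      · exact le_antisymm hcon.1 a
      · exact hcon.2
    have hdiff : ∀ w : ℂ, w ∈ Icc (0 : ℝ) 3 ×ℂ Icc 0 R → w ≠ 0 →
        DifferentiableAt ℂ (fun z => F z * (z / (z + η)) * Ef p μ c z / (1 + z)) w := by
      intro w hw hne
      rw [mem_reProdIm] at hw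
      have hl : DifferentiableAt ℂ Complex.log w := Complex.differentiableAt_log (hsl w hw.1.1 hw.2.1 hne)
      have hE : DifferentiableAt ℂ (Ef p μ c) w := by
        unfold Ef
        fun_prop
      have hq : DifferentiableAt ℂ (fun z : ℂ => z / (z + η)) w :=
        differentiableAt_id.div (differentiableAt_id.add_const _) (hre1 w hw.1.1)
      exact (((hF w (by rw [mem_reProdIm]; exact hw)).mul hq).mul hE).div (differentiableAt_id.const_add 1)
        (hre2 w hw.1.1)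
    -- sizes
    have hz0 : ∀ w : ℂ, w = 0 → ‖F w * (w / (w + η)) * Ef p μ c w / (1 + w)‖ = 0 := by
      rintro w rfl
      simp
    have hpos : 0 ≤ M * Real.exp (9 * c) := by positivity
    have hexpc : ∀ w : ℂ, w.re ∈ Icc (0 : ℝ) 3 → c * (w.re ^ 2 - w.im ^ 2) ≤ 9 * c - c * w.im ^ 2 := by
      intro w hw
      have : w.re ^ 2 ≤ 9 := by nlinarith [hw.1, hw.2]
      nlinarith
    have hcont : ContinuousOn (fun z => F z * (z / (z + η)) * Ef p μ c z / (1 + z)) (Icc (0 : ℝ) 3 ×ℂ Icc 0 R) := by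
      intro w hw
      by_cases hne : w = 0
      · subst hne
        have hF0 : ContinuousAt F 0 := (hF 0 hw).continuousAt
        -- bound near zero
        have hb : ∀ᶠ z : ℂ in 𝓝[Icc (0 : ℝ) 3 ×ℂ Icc 0 R] 0, ‖F z * (z / (z + η)) * Ef p μ c z / (1 + z)‖ ≤
            (‖F 0‖ + 1) * ‖z / (z + η)‖ * Real.exp (9 * c) := by
          have e1 : ∀ᶠ z : ℂ in 𝓝[Icc (0 : ℝ) 3 ×ℂ Icc 0 R] 0, ‖F z‖ < ‖F 0‖ + 1 :=
            (hF0.norm.eventually (gt_mem_nhds (by linarith))).filter_mono nhdsWithin_le_nhds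
          have e2 : ∀ᶠ z : ℂ in 𝓝[Icc (0 : ℝ) 3 ×ℂ Icc 0 R] 0, ‖z‖ < 1 / μ := by
            have : ContinuousAt (fun z : ℂ => ‖z‖) 0 := continuous_norm.continuousAt
            have h00 : ‖(0 : ℂ)‖ < 1 / μ := by rw [norm_zero]; positivity
            exact (this.eventually (gt_mem_nhds h00)).filter_mono nhdsWithin_le_nhds
          filter_upwards [e1, e2, self_mem_nhdsWithin] with z a1 a2 a3
          rw [mem_reProdIm] at a3
          by_cases hz : z = 0
          · rw [hz0 z hz]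
            positivity
          refine (hbound z a3.1.1).trans ?_
          have hE : ‖Ef p μ c z‖ ≤ Real.exp (9 * c) := by
            rw [norm_Ef]
            apply Real.exp_le_exp.2
            have hv := vf_nonneg a3.1.1
            have hlog : Real.log ‖z‖ + Real.log μ ≤ 0 := by
              rw [← Real.log_mul (norm_pos_iff.2 hz).ne' hμ.ne']
              apply Real.log_nonpos (by positivity)
              rw [lt_div_iff₀ hμ] at a2
              exact a2.le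
            have h6 : p * ((Real.log ‖z‖ + Real.log μ) * vf z) ≤ 0 :=
              mul_nonpos_of_nonneg_of_nonpos hp.le (mul_nonpos_of_nonpos_of_nonneg hlog hv)
            have h7 := hexpc z a3.1
            have h8 : 0 ≤ c * z.im ^ 2 := by positivity
            linarith
          have h9 : 1 ≤ 1 + z.re := by linarith [a3.1.1]
          calc ‖F z‖ * ‖z / (z + η)‖ * ‖Ef p μ c z‖ / (1 + z.re) ≤ ‖F z‖ * ‖z / (z + η)‖ * ‖Ef p μ c z‖ :=
                div_le_self (by positivity) h9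
            _ ≤ (‖F 0‖ + 1) * ‖z / (z + η)‖ * Real.exp (9 * c) := by gcongr
        have hlim : Tendsto (fun z : ℂ => (‖F 0‖ + 1) * ‖z / (z + η)‖ * Real.exp (9 * c)) (𝓝[Icc (0 : ℝ) 3 ×ℂ Icc 0 R] 0)
            (𝓝 0) := by
          have hq : ContinuousAt (fun z : ℂ => z / (z + η)) 0 := by
            apply ContinuousAt.div continuousAt_id (by fun_prop)
            exact hre1 0 (by simp)
          have h5 : ContinuousAt (fun z : ℂ => (‖F 0‖ + 1) * ‖z / (z + η)‖ * Real.exp (9 * c)) 0 :=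
            (hq.norm.const_mul _).mul_const _
          have h6 := h5.tendsto.mono_left (nhdsWithin_le_nhds (s := Icc (0 : ℝ) 3 ×ℂ Icc 0 R))
          simpa using h6
        have h7 : Tendsto (fun z => F z * (z / (z + η)) * Ef p μ c z / (1 + z)) (𝓝[Icc (0 : ℝ) 3 ×ℂ Icc 0 R] 0) (𝓝 0) :=
          squeeze_zero_norm' hb hlim
        unfold ContinuousWithinAt
        simpa using h7
      · exact (hdiff w hw hne).continuousAt.continuousWithinAt
    refine rect_max' (by norm_num) hR ?_ hcont ?_ ?_ ?_ ?_ hz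
    · intro w hw
      rw [mem_reProdIm] at hw
      refine (hdiff w ?_ ?_).differentiableWithinAt
      · rw [mem_reProdIm]
        exact ⟨Ioo_subset_Icc_self hw.1, Ioo_subset_Icc_self hw.2⟩
      · intro h
        rw [h] at hw
        exact lt_irrefl _ hw.1.1
    · -- left
      intro t ht
      by_cases ht0 : t = 0
      · rw [hz0 _ (by rw [ht0]; rfl)]
        exact hpos
      have ht1 : 0 < t := lt_of_le_of_ne ht.1 (Ne.symm ht0)
      refine (hbound _ le_rfl).trans ?_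
      have hv : vf (⟨0, t⟩ : ℂ) = 0 := by
        unfold vf
        have : (⟨0, t⟩ : ℂ).arg = Real.pi / 2 := Complex.arg_eq_pi_div_two_iff.2 ⟨rfl, ht1⟩
        rw [this]
        have := Real.pi_ne_zero
        field_simp
        ring
      have hE : ‖Ef p μ c (⟨0, t⟩ : ℂ)‖ ≤ Real.exp (9 * c) := by
        rw [norm_Ef, hv]
        apply Real.exp_le_exp.2
        simp only [mul_zero, zero_add]
        have : 0 ≤ c * t ^ 2 := by positivity
        have : 0 ^ 2 = (0 : ℝ) := by norm_num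
        nlinarith
      have h5 := h1 t ht
      have h6 := hn1 (⟨0, t⟩ : ℂ) le_rfl
      simp only [add_zero, div_one]
      calc ‖F ⟨0, t⟩‖ * ‖(⟨0, t⟩ : ℂ) / (⟨0, t⟩ + η)‖ * ‖Ef p μ c ⟨0, t⟩‖ ≤ M * 1 * Real.exp (9 * c) := by gcongr
        _ = M * Real.exp (9 * c) := by ring
    · -- right
      intro t ht
      have hw0 : (⟨3, t⟩ : ℂ) ≠ 0 := by
        intro h
        have := congrArg Complex.re h
        simp at this
      refine (hbound _ (by norm_num)).trans ?_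
      have hnpos : 0 < ‖(⟨3, t⟩ : ℂ)‖ := norm_pos_iff.2 hw0
      have hv0 : 0 < vf (⟨3, t⟩ : ℂ) := by
        have := le_vf hw0 (by norm_num)
        have h5 : 0 < 2 / Real.pi * ((⟨3, t⟩ : ℂ).re / ‖(⟨3, t⟩ : ℂ)‖) := by
          simp only
          positivity
        linarith
      have hv1 : vf (⟨3, t⟩ : ℂ) ≤ 1 := vf_le_one ht.1
      have hv2 : vf (⟨3, t⟩ : ℂ) ≤ 3 / ‖(⟨3, t⟩ : ℂ)‖ := vf_le hw0 (by norm_num) ht.1
      set v := vf (⟨3, t⟩ : ℂ) with hv
      set N := ‖(⟨3, t⟩ : ℂ)‖ with hN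
      have hmain : (Real.log N + Real.log μ) * v ≤ Real.log 3 + Real.log μ := by
        have e1 : Real.log N = Real.log 3 - Real.log (3 / N) := by
          rw [Real.log_div (by norm_num) hnpos.ne']
          ring
        have e2 : Real.log v ≤ Real.log (3 / N) := Real.log_le_log hv0 hv2
        have e3 := neg_mul_log_le hv0
        have e4 : Real.log (3 * μ) = Real.log 3 + Real.log μ := Real.log_mul (by norm_num) hμ.ne'
        rw [e4] at hμ3
        rw [e1]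
        nlinarith [mul_le_mul_of_nonneg_left e2 hv0.le, mul_nonneg (sub_nonneg.2 hv1) (sub_nonneg.2 hμ3)]
      have hE : ‖Ef p μ c (⟨3, t⟩ : ℂ)‖ ≤ (3 * μ) ^ p * Real.exp (9 * c) := by
        rw [norm_Ef, Real.rpow_def_of_pos (by positivity), ← Real.exp_add]
        apply Real.exp_le_exp.2
        have e4 : Real.log (3 * μ) = Real.log 3 + Real.log μ := Real.log_mul (by norm_num) hμ.ne'
        rw [e4]
        simp only
        have e5 := mul_le_mul_of_nonneg_left hmain hp.le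
        have e6 : 0 ≤ c * t ^ 2 := by positivity
        nlinarith
      have h5 := h2 3 t (by norm_num) le_rfl ht.1 ht.2
      have h6 := hn1 (⟨3, t⟩ : ℂ) (by norm_num)
      have h7 : (3 : ℝ) ^ (-p) * (3 * μ) ^ p = μ ^ p := by
        rw [Real.mul_rpow (by norm_num) hμ.le, ← mul_assoc, ← Real.rpow_add (by norm_num), neg_add_cancel,
          Real.rpow_zero, one_mul]
      simp only
      rw [div_le_iff₀ (by norm_num)]
      calc ‖F ⟨3, t⟩‖ * ‖(⟨3, t⟩ : ℂ) / (⟨3, t⟩ + η)‖ * ‖Ef p μ c ⟨3, t⟩‖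
          ≤ (A * (1 + 3) * 3 ^ (-p)) * 1 * ((3 * μ) ^ p * Real.exp (9 * c)) := by gcongr
        _ = A * (3 ^ (-p) * (3 * μ) ^ p) * Real.exp (9 * c) * (1 + 3) := by ring
        _ = M * Real.exp (9 * c) * (1 + 3) := by rw [h7, hMA]
    · -- bottom
      intro s hs
      by_cases hs0 : s = 0
      · rw [hz0 _ (by rw [hs0]; rfl)]
        exact hpos
      have hs1 : 0 < s := lt_of_le_of_ne hs.1 (Ne.symm hs0)
      refine (hbound _ hs.1).trans ?_
      have hv : vf (⟨s, 0⟩ : ℂ) = 1 := by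
        unfold vf
        have : (⟨s, 0⟩ : ℂ).arg = 0 := Complex.arg_eq_zero_iff.2 ⟨hs.1, rfl⟩
        rw [this]
        ring
      have hn : ‖(⟨s, 0⟩ : ℂ)‖ = s := by
        have : (⟨s, 0⟩ : ℂ) = (s : ℂ) := rfl
        rw [this, Complex.norm_real, Real.norm_eq_abs, abs_of_pos hs1]
      have hE : ‖Ef p μ c (⟨s, 0⟩ : ℂ)‖ ≤ (s * μ) ^ p * Real.exp (9 * c) := by
        rw [norm_Ef, hv, hn, Real.rpow_def_of_pos (by positivity), ← Real.exp_add]
        apply Real.exp_le_exp.2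
        rw [Real.log_mul hs1.ne' hμ.ne']
        simp only
        have : s ^ 2 ≤ 9 := by nlinarith [hs.1, hs.2]
        nlinarith
      have h5 := h2 s 0 hs1 hs.2 le_rfl hR.le
      have h6 := hn1 (⟨s, 0⟩ : ℂ) hs.1
      have h7 : s ^ (-p) * (s * μ) ^ p = μ ^ p := by
        rw [Real.mul_rpow hs1.le hμ.le, ← mul_assoc, ← Real.rpow_add hs1, neg_add_cancel,
          Real.rpow_zero, one_mul]
      simp only
      have hs2 : 0 < 1 + s := by linarith
      rw [div_le_iff₀ hs2]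
      calc ‖F ⟨s, 0⟩‖ * ‖(⟨s, 0⟩ : ℂ) / (⟨s, 0⟩ + η)‖ * ‖Ef p μ c ⟨s, 0⟩‖
          ≤ (A * (1 + s) * s ^ (-p)) * 1 * ((s * μ) ^ p * Real.exp (9 * c)) := by gcongr
        _ = A * (s ^ (-p) * (s * μ) ^ p) * Real.exp (9 * c) * (1 + s) := by ring
        _ = M * Real.exp (9 * c) * (1 + s) := by rw [h7, hMA]
    · -- top
      intro s hs
      have hw0 : (⟨s, R⟩ : ℂ) ≠ 0 := by
        intro h
        have := congrArg Complex.im h
        simp at this
        linarith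
      refine (hbound _ hs.1).trans ?_
      have hnpos : 0 < ‖(⟨s, R⟩ : ℂ)‖ := norm_pos_iff.2 hw0
      have hnR : R ≤ ‖(⟨s, R⟩ : ℂ)‖ := Complex.im_le_norm (⟨s, R⟩ : ℂ)
      have hnR3 : ‖(⟨s, R⟩ : ℂ)‖ ≤ R + 3 := by
        have h5 := Complex.norm_le_abs_re_add_abs_im (⟨s, R⟩ : ℂ)
        simp only at h5
        rw [abs_of_nonneg hs.1, abs_of_pos hR] at h5
        linarith [hs.2]
      have hv0 : 0 ≤ vf (⟨s, R⟩ : ℂ) := vf_nonneg hs.1
      have hv1 : vf (⟨s, R⟩ : ℂ) ≤ 3 / R := by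
        refine (vf_le hw0 hs.1 hR.le).trans ?_
        simp only
        exact div_le_div₀ (by norm_num) hs.2 hR hnR
      have hmain : (Real.log ‖(⟨s, R⟩ : ℂ)‖ + Real.log μ) * vf (⟨s, R⟩ : ℂ) ≤ |Real.log (μ * (R + 3))| * (3 / R) := by
        have e1 : Real.log ‖(⟨s, R⟩ : ℂ)‖ + Real.log μ ≤ |Real.log (μ * (R + 3))| := by
          rw [← Real.log_mul hnpos.ne' hμ.ne']
          refine (Real.log_le_log (by positivity) ?_).trans (le_abs_self _)
          rw [mul_comm]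
          gcongr
        calc (Real.log ‖(⟨s, R⟩ : ℂ)‖ + Real.log μ) * vf (⟨s, R⟩ : ℂ)
            ≤ |Real.log (μ * (R + 3))| * vf (⟨s, R⟩ : ℂ) := mul_le_mul_of_nonneg_right e1 hv0
          _ ≤ |Real.log (μ * (R + 3))| * (3 / R) := mul_le_mul_of_nonneg_left hv1 (abs_nonneg _)
      have hE : ‖Ef p μ c (⟨s, R⟩ : ℂ)‖ ≤ Real.exp (p * (|Real.log (μ * (R + 3))| * (3 / R))) * Real.exp (9 * c - c * R ^ 2) := by
        rw [norm_Ef, ← Real.exp_add]
        apply Real.exp_le_exp.2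
        have e5 := mul_le_mul_of_nonneg_left hmain hp.le
        have e6 := hexpc (⟨s, R⟩ : ℂ) hs
        simp only at e6 ⊢
        linarith
      have h5 := h3 s hs
      have h6 := hn1 (⟨s, R⟩ : ℂ) hs.1
      have h7 : 1 ≤ 1 + s := by linarith [hs.1]
      simp only
      calc ‖F ⟨s, R⟩‖ * ‖(⟨s, R⟩ : ℂ) / (⟨s, R⟩ + η)‖ * ‖Ef p μ c ⟨s, R⟩‖ / (1 + s)
          ≤ ‖F ⟨s, R⟩‖ * ‖(⟨s, R⟩ : ℂ) / (⟨s, R⟩ + η)‖ * ‖Ef p μ c ⟨s, R⟩‖ := div_le_self (by positivity) h7
        _ ≤ U * 1 * (Real.exp (p * (|Real.log (μ * (R + 3))| * (3 / R))) * Real.exp (9 * c - c * R ^ 2)) := by gcongr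
        _ = (U * Real.exp (p * (|Real.log (μ * (R + 3))| * (3 / R)))) * Real.exp (9 * c - c * R ^ 2) := by ring
        _ ≤ (M * Real.exp (c * R ^ 2)) * Real.exp (9 * c - c * R ^ 2) :=
            mul_le_mul_of_nonneg_right h4 (Real.exp_pos _).le
        _ = M * Real.exp (9 * c) := by rw [mul_assoc, ← Real.exp_add]; congr 2; ring
  -- let η tend to 0
  set z : ℂ := ⟨x, y⟩ with hz
  have hzm : z ∈ Icc (0 : ℝ) 3 ×ℂ Icc 0 R := by
    rw [mem_reProdIm]
    exact ⟨⟨hx.le, hx3⟩, hy, hyR⟩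
  have hz0 : z ≠ 0 := by
    intro h
    have := congrArg Complex.re h
    rw [hz] at this
    simp at this
    linarith
  have h1z : 1 + z ≠ 0 := by
    intro h
    have := congrArg Complex.re h
    rw [add_re, one_re, zero_re, hz] at this
    simp only at this
    linarith
  have hlim : Tendsto (fun η : ℝ => ‖F z * (z / (z + η)) * Ef p μ c z / (1 + z)‖) (𝓝[>] 0)
      (𝓝 (‖F z * (z / (z + (0 : ℝ))) * Ef p μ c z / (1 + z)‖)) := by
    have hq : ContinuousAt (fun η : ℝ => z / (z + (η : ℂ))) 0 := by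
      apply ContinuousAt.div continuousAt_const (by fun_prop)
      simpa using hz0
    have h5 : ContinuousAt (fun η : ℝ => ‖F z * (z / (z + η)) * Ef p μ c z / (1 + z)‖) 0 := by
      apply ContinuousAt.norm
      apply ContinuousAt.div_const
      exact (hq.const_mul _).mul_const _
    exact h5.tendsto.mono_left nhdsWithin_le_nhds
  have h6 : ‖F z * (z / (z + (0 : ℝ))) * Ef p μ c z / (1 + z)‖ ≤ M * Real.exp (9 * c) := by
    refine le_of_tendsto hlim ?_
    filter_upwards [self_mem_nhdsWithin] with η hη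
    exact key η hη z hzm
  rw [ofReal_zero, add_zero, div_self hz0, mul_one, norm_div, norm_mul, norm_Ef, div_le_iff₀ (norm_pos_iff.2 h1z)] at h6
  exact h6

end Pool.Agent.Q275.ZM
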