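import Pool.Agent.Q275.ZM.Unif
import Pool.Agent.Q275.ZM.R

set_option autoImplicit false

/-! Monotonicity in the order of the derivative of the maxima on the line `Re s = 1`. -/

namespace Pool.Agent.Q275.ZM

open Complex Set Filter Topology Q241.MZ

/-- lower bound for all orders -/
theorem mu_low : ∀ᶠ T : ℝ in atTop, ∀ l : ℕ, 1 ≤ l → Ord l T → ∃ μ0 : ℝ, 3 / 2 ≤ μ0 ∧
    490 ≤ ((l : ℝ) + 2) * Real.log (3 / 4 * μ0) ∧ Ak (l + 1) * μ0 ^ (l + 2) ≤ M l 1 T := by
  obtain ⟨l0, h0⟩ := large_uniform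
  set L1 := max l0 5000 with hL1
  have hfin : ∀ᶠ T : ℝ in atTop, ∀ l ∈ Finset.Icc 1 L1, Ak (l + 1) * (4 / 3 * Real.exp 490) ^ (l + 2) ≤ M l 1 T := by
    rw [Filter.eventually_all_finset]
    intro l hl
    exact M_large_fixed l (Finset.mem_Icc.1 hl).1 _
  filter_upwards [h0, hfin] with T h1 h2 l hl hO
  rcases le_total L1 l with h | h
  · refine ⟨3 / 2, le_rfl, ?_, h1 l ((le_max_left _ _).trans h) hO⟩
    have h5 : (5000 : ℝ) ≤ l := by exact_mod_cast (le_max_right _ _).trans h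
    have h6 := Real.one_sub_inv_le_log_of_pos (show (0 : ℝ) < 3 / 4 * (3 / 2) by norm_num)
    have h7 : (1 : ℝ) / 9 ≤ 1 - (3 / 4 * (3 / 2) : ℝ)⁻¹ := by norm_num
    nlinarith
  · refine ⟨4 / 3 * Real.exp 490, ?_, ?_, h2 l (Finset.mem_Icc.2 ⟨hl, h⟩)⟩
    · have := Real.add_one_le_exp 490
      linarith
    · rw [show 3 / 4 * (4 / 3 * Real.exp 490) = Real.exp 490 by ring, Real.log_exp]
      have : (1 : ℝ) ≤ l := by exact_mod_cast hl
      nlinarith

/-- decay in the corner -/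
theorem decay (F : ℂ → ℂ) {p μ c R m U A : ℝ} (hp : 0 < p) (hμ : 3 / 2 ≤ μ) (hc : 0 ≤ c) (hc2 : Real.exp (10 * c) ≤ 2)
    (hR : 1 ≤ R) (hm : 0 ≤ m) (hA : 0 ≤ A) (hU : 0 ≤ U)
    (hF : ∀ z ∈ Icc (0 : ℝ) 3 ×ℂ Icc 0 R, DifferentiableAt ℂ F z) (h1 : ∀ y ∈ Icc (0 : ℝ) R, ‖F ⟨0, y⟩‖ ≤ m)
    (h2 : ∀ x y : ℝ, 0 < x → x ≤ 3 → 0 ≤ y → y ≤ R → ‖F ⟨x, y⟩‖ ≤ A * (1 + x) * x ^ (-p)) (hMA : m = A * μ ^ p)
    (h3 : ∀ x ∈ Icc (0 : ℝ) 3, ‖F ⟨x, R⟩‖ ≤ U)
    (h4 : U * Real.exp (p * (|Real.log (μ * (R + 3))| * (3 / R))) ≤ m * Real.exp (c * R ^ 2))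
    {x : ℝ} (hx : 0 < x) (hx3 : x ≤ 3) :
    ‖F ⟨x, 3 / 4⟩‖ ≤ 10 * m * Real.exp (-(p * Real.log (3 / 4 * μ) / 7 * x)) := by
  have hμ0 : 0 < μ := by linarith
  have hlog3 : 1 ≤ Real.log (3 * μ) := by
    rw [Real.le_log_iff_exp_le (by linarith)]
    have := Real.exp_one_lt_d9
    linarith
  have h := corner F hp hμ0 hlog3 hc (by linarith) hm hA hU hF h1 h2 hMA h3 h4 hx hx3 (show (0 : ℝ) ≤ 3 / 4 by norm_num)
    (by linarith)
  set z : ℂ := ⟨x, 3 / 4⟩ with hz
  have hzn : ‖z‖ ≤ 4 := by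
    refine (Complex.norm_le_abs_re_add_abs_im z).trans ?_
    rw [hz]
    simp only
    rw [abs_of_pos hx, abs_of_pos (by norm_num)]
    linarith
  have hzn2 : 3 / 4 ≤ ‖z‖ := by
    have := Complex.abs_im_le_norm z
    rw [hz] at this
    simp only at this
    rw [abs_of_pos (by norm_num)] at this
    exact this
  have hz0 : z ≠ 0 := by
    intro h0
    rw [h0, norm_zero] at hzn2
    norm_num at hzn2
  have hvf : x / 7 ≤ vf z := by
    refine le_trans ?_ (le_vf hz0 hx.le)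
    have e1 : z.re = x := rfl
    rw [e1]
    have h5 : x / 4 ≤ x / ‖z‖ := div_le_div_of_nonneg_left hx.le (by linarith) hzn
    have h6 : (4 : ℝ) / 7 ≤ 2 / Real.pi := by
      rw [div_le_div_iff₀ (by norm_num) Real.pi_pos]
      have := Real.pi_lt_d2
      linarith
    calc x / 7 = 4 / 7 * (x / 4) := by ring
      _ ≤ 2 / Real.pi * (x / ‖z‖) := mul_le_mul h6 h5 (by positivity) (by positivity)
  set lam := Real.log (3 / 4 * μ) with hlam
  have hlam0 : 0 ≤ lam := Real.log_nonneg (by linarith)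
  have hlam1 : lam ≤ Real.log ‖z‖ + Real.log μ := by
    rw [hlam, Real.log_mul (by norm_num) hμ0.ne']
    have := Real.log_le_log (by norm_num) hzn2
    linarith
  have h5 : lam * (x / 7) ≤ (Real.log ‖z‖ + Real.log μ) * vf z := mul_le_mul hlam1 hvf (by positivity) (by linarith)
  have h6 : Real.exp (p * lam / 7 * x - c) ≤
      Real.exp (p * ((Real.log ‖z‖ + Real.log μ) * vf z) + c * (x ^ 2 - (3 / 4) ^ 2)) := by
    apply Real.exp_le_exp.2
    have h7 := mul_le_mul_of_nonneg_left h5 hp.le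
    have h8 : 0 ≤ c * x ^ 2 := by positivity
    have h9 : p * (lam * (x / 7)) = p * lam / 7 * x := by ring
    rw [h9] at h7
    nlinarith
  have h7 : ‖1 + z‖ ≤ 5 := by
    refine (norm_add_le _ _).trans ?_
    rw [norm_one]
    linarith
  have h8 : ‖F z‖ * Real.exp (p * lam / 7 * x - c) ≤ m * Real.exp (9 * c) * 5 := by
    refine (mul_le_mul_of_nonneg_left h6 (norm_nonneg _)).trans (h.trans ?_)
    exact mul_le_mul_of_nonneg_left h7 (by positivity)
  have h9 : ‖F z‖ = ‖F z‖ * Real.exp (p * lam / 7 * x - c) * (Real.exp c * Real.exp (-(p * lam / 7 * x))) := by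
    rw [mul_assoc, ← Real.exp_add, ← Real.exp_add]
    have : p * lam / 7 * x - c + (c + -(p * lam / 7 * x)) = 0 := by ring
    rw [this, Real.exp_zero, mul_one]
  rw [h9]
  calc ‖F z‖ * Real.exp (p * lam / 7 * x - c) * (Real.exp c * Real.exp (-(p * lam / 7 * x)))
      ≤ m * Real.exp (9 * c) * 5 * (Real.exp c * Real.exp (-(p * lam / 7 * x))) :=
        mul_le_mul_of_nonneg_right h8 (by positivity)
    _ = 5 * m * (Real.exp (9 * c) * Real.exp c) * Real.exp (-(p * lam / 7 * x)) := by ring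
    _ = 5 * m * Real.exp (10 * c) * Real.exp (-(p * lam / 7 * x)) := by
        rw [← Real.exp_add]
        congr 3
        ring
    _ ≤ 5 * m * 2 * Real.exp (-(p * lam / 7 * x)) := by gcongr
    _ = 10 * m * Real.exp (-(p * lam / 7 * x)) := by ring

theorem hasDerivAt_hor (l : ℕ) {x τ : ℝ} (hτ : 0 < τ) :
    HasDerivAt (fun x : ℝ => D l ⟨4 - x, τ⟩) (-(D (l + 1) ⟨4 - x, τ⟩)) x := by
  have h1 : HasDerivAt (D l) (D (l + 1) ⟨4 - x, τ⟩) (⟨4 - x, τ⟩ : ℂ) := by
    rw [← deriv_D]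
    exact (D_differentiableAt l (ne_one hτ)).hasDerivAt
  have h2 : HasDerivAt (fun x : ℝ => (⟨4 - x, τ⟩ : ℂ)) (-1) x := by
    have h3 : (fun x : ℝ => (⟨4 - x, τ⟩ : ℂ)) = fun x : ℝ => ((4 : ℂ) + τ * I) - (x : ℂ) := by
      funext x
      apply Complex.ext <;> simp
    rw [h3]
    have := (Complex.ofRealCLM.hasDerivAt (x := x)).const_sub ((4 : ℂ) + τ * I)
    simpa using this
  have h3 := h1.comp x h2
  rw [mul_neg_one] at h3
  exact h3

theorem step_int {l : ℕ} (hl : 1 ≤ l) {τ m κ : ℝ} (hτ : 0 < τ) (hm : 0 ≤ m) (hκ : 0 < κ)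
    (h : ∀ x : ℝ, 0 < x → x ≤ 3 → ‖D (l + 1) ⟨1 + x, τ⟩‖ ≤ 10 * m * Real.exp (-(κ * x))) :
    ‖D l ⟨1, τ⟩‖ ≤ Sl l + 10 * m / κ := by
  have h0 : ‖D l ⟨4, τ⟩‖ ≤ Sl l := by
    have h1 := D_right l hl (show (0 : ℝ) < 3 by norm_num) τ
    rw [show (1 : ℝ) + 3 = 4 by norm_num] at h1
    have h3 : Ak l * 4 / 3 ^ (l + 1) = Sl l := by unfold Sl; norm_num
    rwa [h3] at h1
  have key := image_norm_le_of_norm_deriv_right_le_deriv_boundary (a := 0) (b := 3)
    (f := fun x : ℝ => D l ⟨4 - x, τ⟩) (f' := fun x => -(D (l + 1) ⟨4 - x, τ⟩))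
    (B := fun x => Sl l + 10 * m / κ * Real.exp (-(κ * (3 - x)))) (B' := fun x => 10 * m * Real.exp (-(κ * (3 - x))))
    (fun x _ => (hasDerivAt_hor l hτ).continuousAt.continuousWithinAt)
    (fun x _ => (hasDerivAt_hor l hτ).hasDerivWithinAt)
    (by
      simp only [sub_zero]
      have : 0 ≤ 10 * m / κ * Real.exp (-(κ * 3)) := by positivity
      linarith)
    (fun x => by
      have h1 : HasDerivAt (fun x : ℝ => -(κ * (3 - x))) κ x := by
        have h2 : (fun x : ℝ => -(κ * (3 - x))) = fun x : ℝ => κ * x - κ * 3 := by funext x; ring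
        rw [h2]
        simpa using ((hasDerivAt_id x).const_mul κ).sub_const (κ * 3)
      have h3 := (h1.exp.const_mul (10 * m / κ)).const_add (Sl l)
      refine h3.congr_deriv ?_
      field_simp)
    (fun x hx => by
      rw [norm_neg]
      have h1 := h (3 - x) (by linarith [hx.2]) (by linarith [hx.1])
      rw [show (1 : ℝ) + (3 - x) = 4 - x by ring] at h1
      exact h1)
  have h1 := key (show (3 : ℝ) ∈ Icc (0 : ℝ) 3 by constructor <;> norm_num)
  simp only [sub_self, mul_zero, neg_zero, Real.exp_zero, mul_one] at h1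
  rw [show (4 : ℝ) - 3 = 1 by norm_num] at h1
  exact h1

/-- neighbouring orders -/
theorem main_step : ∀ᶠ T : ℝ in atTop, ∀ l : ℕ, 1 ≤ l → Ord (l + 1) T → M l 1 T < M (l + 1) 1 T := by
  obtain ⟨C, B, hC, hB, hg⟩ := growthU
  have hlog2 : ∀ᶠ T : ℝ in atTop, Real.log T ^ 2 * (6 * (B + 4)) ≤ T := by
    have h := (Real.isLittleO_pow_log_id_atTop (n := 2)).bound (show (0 : ℝ) < 1 / (6 * (B + 4)) by positivity)
    filter_upwards [h, eventually_gt_atTop (0 : ℝ)] with T h1 h2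
    rw [Real.norm_eq_abs, Real.norm_eq_abs, abs_of_nonneg (sq_nonneg _), id, abs_of_pos h2] at h1
    rw [one_div, inv_mul_eq_div, le_div_iff₀ (by positivity)] at h1
    exact h1
  filter_upwards [fac_le, mu_low, hlog2, loglog_large 1, Real.tendsto_log_atTop.eventually_ge_atTop 1,
    eventually_ge_atTop (6 : ℝ), eventually_ge_atTop (100 * (B + 2)),
    eventually_ge_atTop (Real.exp 1 * (C * 3 ^ B))] with T hfac hmu hlg hll hL1 hT6 hTB hTC l hl hO
  by_contra hcon
  push Not at hcon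
  have hT0 : 0 < T := by linarith
  have hl0 : (1 : ℝ) ≤ l := by exact_mod_cast hl
  set L := Real.log T with hL
  have hO' : Ord l T := by
    unfold Ord at hO ⊢
    push_cast at hO
    linarith
  have hlL : (l : ℝ) + 1 ≤ L := by
    have h5 := hO
    unfold Ord at h5
    push_cast at h5
    rw [le_div_iff₀ (by linarith)] at h5
    nlinarith
  obtain ⟨μ0, hμ0, hlam0, hM0⟩ := hmu l hl hO'
  set m := M l 1 T with hm
  set A := Ak (l + 1) with hA
  have hA0 : 0 < A := Ak_pos _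
  have hA1 : 1 ≤ A := by
    rw [hA]
    unfold Ak
    have h5 : (1 : ℝ) ≤ ((l + 1 + 1).factorial : ℝ) := by exact_mod_cast Nat.factorial_pos _
    have := Real.exp_one_gt_d9
    nlinarith
  have hμpow : 1 ≤ μ0 ^ (l + 2) := one_le_pow₀ (by linarith)
  have hm1 : 1 ≤ m := by nlinarith
  set p : ℝ := (l : ℝ) + 2 with hp
  have hp0 : 0 < p := by positivity
  set μ := (m / A) ^ (1 / p) with hμ
  have hmA : m = A * μ ^ p := by
    rw [hμ, ← Real.rpow_mul (by positivity), one_div_mul_cancel hp0.ne', Real.rpow_one]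
    field_simp
  have hμ0μ : μ0 ≤ μ := by
    have h5 : μ0 ^ p ≤ m / A := by
      rw [le_div_iff₀ hA0, mul_comm]
      have h6 : μ0 ^ p = μ0 ^ (l + 2) := by
        rw [← Real.rpow_natCast, hp]
        congr 1
        push_cast
        ring
      rw [h6]
      exact hM0
    calc μ0 = (μ0 ^ p) ^ (1 / p) := by rw [← Real.rpow_mul (by linarith), mul_one_div_cancel hp0.ne', Real.rpow_one]
      _ ≤ μ := Real.rpow_le_rpow (Real.rpow_nonneg (by linarith) _) h5 (by positivity)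
  have hμ32 : 3 / 2 ≤ μ := hμ0.trans hμ0μ
  have hμpos : 0 < μ := by linarith
  set lam := Real.log (3 / 4 * μ) with hlamdef
  have hlam : 490 ≤ p * lam :=
    hlam0.trans (mul_le_mul_of_nonneg_left (Real.log_le_log (by linarith) (by linarith)) hp0.le)
  have hgr : ∀ (k : ℕ), Ord k T → ∀ x t : ℝ, 0 ≤ x → t ∈ Icc T (2 * T) → ‖D k ⟨x, t⟩‖ ≤ T * (C * (3 ^ B * T ^ B)) := by
    intro k hk x t hx ht
    have h6 := hg k ⟨x, t⟩ hx (by simp only; rw [abs_of_pos (by linarith [ht.1])]; linarith [ht.1])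
    simp only at h6
    have h7 : (1 + |t|) ^ B ≤ 3 ^ B * T ^ B := by
      rw [← Real.mul_rpow (by norm_num) hT0.le]
      apply Real.rpow_le_rpow (by positivity) _ hB.le
      rw [abs_of_pos (by linarith [ht.1])]
      linarith [ht.2]
    refine h6.trans ?_
    have := hfac k hk
    gcongr
  set U : ℝ := T * (C * (3 ^ B * T ^ B)) with hU
  have hU0 : 0 ≤ U := by positivity
  obtain ⟨t0, ht0, hatt⟩ := M_attained l 1 hT0
  have hmU : m ≤ U := by
    rw [← hm] at hatt
    rw [← hatt]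
    exact hgr l hO' 1 t0 zero_le_one ht0
  have hUT1 : U * Real.exp 1 ≤ T ^ (B + 2) := by
    have h5 : T ^ (B + 2) = T * (T * T ^ B) := by
      rw [Real.rpow_add hT0, show (2 : ℝ) = ((2 : ℕ) : ℝ) by norm_num, Real.rpow_natCast]
      ring
    rw [h5]
    calc U * Real.exp 1 = (Real.exp 1 * (C * 3 ^ B)) * (T * T ^ B) := by rw [hU]; ring
      _ ≤ T * (T * T ^ B) := mul_le_mul_of_nonneg_right hTC (by positivity)
  have hUT : U ≤ T ^ (B + 2) := by
    refine le_trans ?_ hUT1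
    have := Real.exp_one_gt_d9
    nlinarith
  set R := T / 2 with hR
  have hR0 : 0 < R := by positivity
  set c := (B + 2) * L / R ^ 2 with hc
  have hc0 : 0 ≤ c := by positivity
  have hcR : Real.exp (c * R ^ 2) = T ^ (B + 2) := by
    rw [Real.rpow_def_of_pos hT0]
    congr 1
    rw [hc, hL]
    field_simp
  have hc2 : Real.exp (10 * c) ≤ 2 := by
    rw [← Real.le_log_iff_exp_le (by norm_num)]
    have h1 : L ≤ T := (Real.log_le_sub_one_of_pos hT0).trans (by linarith)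
    have h2 : c ≤ (B + 2) * T / R ^ 2 := by
      rw [hc]
      apply div_le_div_of_nonneg_right _ (by positivity)
      exact mul_le_mul_of_nonneg_left h1 (by linarith)
    have h3 : (B + 2) * T / R ^ 2 = 4 * ((B + 2) / T) := by rw [hR]; field_simp; norm_num
    have h4 : (B + 2) / T ≤ 1 / 100 := by
      rw [div_le_iff₀ hT0]
      linarith
    have := Real.log_two_gt_d9
    linarith
  have h4 : U * Real.exp (p * (|Real.log (μ * (R + 3))| * (3 / R))) ≤ m * Real.exp (c * R ^ 2) := by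
    have e1 : p * (|Real.log (μ * (R + 3))| * (3 / R)) ≤ 1 := by
      have e2 : 0 ≤ Real.log (μ * (R + 3)) := Real.log_nonneg (by nlinarith)
      rw [abs_of_nonneg e2, Real.log_mul hμpos.ne' (by positivity)]
      have e3 : p * Real.log μ ≤ (B + 2) * L := by
        have h5 : p * Real.log μ = Real.log (m / A) := by
          rw [hμ, Real.log_rpow (by positivity)]
          field_simp
        rw [h5]
        have h6 : m / A ≤ T ^ (B + 2) := (div_le_self (by linarith) hA1).trans (hmU.trans hUT)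
        have h7 := Real.log_le_log (by positivity) h6
        rw [Real.log_rpow hT0] at h7
        exact h7
      have e4 : Real.log (R + 3) ≤ L := Real.log_le_log (by positivity) (by rw [hR]; linarith)
      have e5 : 0 ≤ Real.log (R + 3) := Real.log_nonneg (by linarith)
      have e6 : p * Real.log (R + 3) ≤ 2 * L ^ 2 := by
        have e7 : p ≤ 2 * L := by rw [hp]; linarith
        calc p * Real.log (R + 3) ≤ (2 * L) * L := mul_le_mul e7 e4 e5 (by linarith)
          _ = 2 * L ^ 2 := by ring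
      calc p * ((Real.log μ + Real.log (R + 3)) * (3 / R)) = (p * Real.log μ + p * Real.log (R + 3)) * (3 / R) := by ring
        _ ≤ ((B + 2) * L + 2 * L ^ 2) * (3 / R) := by
            apply mul_le_mul_of_nonneg_right _ (by positivity)
            linarith
        _ ≤ ((B + 4) * L ^ 2) * (3 / R) := by
            apply mul_le_mul_of_nonneg_right _ (by positivity)
            have e8 : L ≤ L ^ 2 := by nlinarith
            have e9 := mul_le_mul_of_nonneg_left e8 (show (0 : ℝ) ≤ B + 2 by linarith)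
            linarith
        _ = (L ^ 2 * (6 * (B + 4))) / T := by
            rw [hR]
            field_simp
            ring
        _ ≤ 1 := by
            rw [div_le_one hT0]
            exact hlg
    rw [hcR]
    calc U * Real.exp (p * (|Real.log (μ * (R + 3))| * (3 / R))) ≤ U * Real.exp 1 :=
          mul_le_mul_of_nonneg_left (Real.exp_le_exp.2 e1) hU0
      _ ≤ T ^ (B + 2) := hUT1
      _ ≤ m * T ^ (B + 2) := le_mul_of_one_le_left (by positivity) hm1
  have core : ∀ F : ℂ → ℂ, (∀ z ∈ Icc (0 : ℝ) 3 ×ℂ Icc 0 R, DifferentiableAt ℂ F z) →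
      (∀ x y : ℝ, 0 ≤ x → x ≤ 3 → 0 ≤ y → y ≤ R → ∃ t ∈ Icc T (2 * T), ‖F ⟨x, y⟩‖ = ‖D (l + 1) ⟨1 + x, t⟩‖) →
      ∀ x : ℝ, 0 < x → x ≤ 3 → ‖F ⟨x, 3 / 4⟩‖ ≤ 10 * m * Real.exp (-(p * lam / 7 * x)) := by
    intro F hF hFt x hx hx3
    refine decay F hp0 hμ32 hc0 hc2 (by rw [hR]; linarith) (by linarith) hA0.le hU0 hF ?_ ?_ hmA ?_ h4 hx hx3
    · intro y hy
      obtain ⟨t, ht, he⟩ := hFt 0 y le_rfl (by norm_num) hy.1 hy.2
      rw [he, add_zero]
      exact (le_M hT0 ht).trans hcon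
    · intro x y hx hx3 hy hyR
      obtain ⟨t, ht, he⟩ := hFt x y hx.le hx3 hy hyR
      rw [he]
      refine (D_right (l + 1) (by omega) hx t).trans (le_of_eq ?_)
      rw [div_eq_mul_inv, Real.rpow_neg hx.le]
      congr 2
      rw [← Real.rpow_natCast, hp]
      congr 1
      push_cast
      ring
    · intro x hx
      obtain ⟨t, ht, he⟩ := hFt x R hx.1 hx.2 hR0.le le_rfl
      rw [he]
      exact hgr (l + 1) hO (1 + x) t (by linarith [hx.1]) ht
  have hτ : ∃ τ ∈ Icc T (2 * T), |t0 - τ| = 3 / 4 ∧ ∀ x : ℝ, 0 < x → x ≤ 3 →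
      ‖D (l + 1) ⟨1 + x, τ⟩‖ ≤ 10 * m * Real.exp (-(p * lam / 7 * x)) := by
    rcases le_total t0 (3 / 2 * T) with h | h
    · refine ⟨t0 + 3 / 4, ⟨by linarith [ht0.1], by linarith⟩, ?_, ?_⟩
      · rw [show t0 - (t0 + 3 / 4) = -(3 / 4 : ℝ) by ring, abs_neg, abs_of_pos (by norm_num)]
      intro x hx hx3
      have hadd : ∀ x y : ℝ, (⟨1, t0⟩ : ℂ) + ⟨x, y⟩ = ⟨1 + x, t0 + y⟩ := fun x y => by
        apply Complex.ext <;> simp
      have h5 := core (fun z => D (l + 1) (⟨1, t0⟩ + z)) (by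
        intro z hz
        rw [mem_reProdIm] at hz
        have hne : (⟨1, t0⟩ : ℂ) + z ≠ 1 := by
          intro h0
          have := congrArg Complex.im h0
          rw [add_im, one_im] at this
          simp only at this
          linarith [hz.2.1, ht0.1]
        exact (D_differentiableAt (l + 1) hne).comp z (by fun_prop)) (by
        intro x y hx hx3 hy hyR
        refine ⟨t0 + y, ⟨by linarith [ht0.1], by linarith⟩, ?_⟩
        simp only [hadd]) x hx hx3
      simp only [hadd] at h5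
      exact h5
    · refine ⟨t0 - 3 / 4, ⟨by linarith [ht0.2], by linarith [ht0.2]⟩, ?_, ?_⟩
      · rw [show t0 - (t0 - 3 / 4) = (3 / 4 : ℝ) by ring, abs_of_pos (by norm_num)]
      intro x hx hx3
      have hadd : ∀ x y : ℝ, (⟨1, t0⟩ : ℂ) + (starRingEnd ℂ) ⟨x, y⟩ = ⟨1 + x, t0 - y⟩ := fun x y => by
        apply Complex.ext <;> simp [sub_eq_add_neg]
      have h5 := core (fun z => (starRingEnd ℂ) (D (l + 1) (⟨1, t0⟩ + (starRingEnd ℂ) z))) (by
        intro z hz
        rw [mem_reProdIm] at hz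
        have hne : (⟨1, t0⟩ : ℂ) + (starRingEnd ℂ) z ≠ 1 := by
          intro h0
          have := congrArg Complex.im h0
          rw [add_im, one_im, conj_im] at this
          simp only at this
          linarith [hz.2.2, ht0.1]
        have h6 : DifferentiableAt ℂ (fun w => D (l + 1) (⟨1, t0⟩ + w)) ((starRingEnd ℂ) z) :=
          (D_differentiableAt (l + 1) hne).comp _ (by fun_prop)
        have h7 := h6.conj_conj
        rw [Complex.conj_conj] at h7
        exact h7) (by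
        intro x y hx hx3 hy hyR
        refine ⟨t0 - y, ⟨by linarith [ht0.2], by linarith [ht0.2]⟩, ?_⟩
        simp only [hadd, Complex.norm_conj]) x hx hx3
      simp only [hadd, Complex.norm_conj] at h5
      exact h5
  obtain ⟨τ, hτm, hτd, hdec⟩ := hτ
  have h1 := step_int hl (τ := τ) (m := m) (κ := p * lam / 7) (by linarith [hτm.1]) (by linarith) (by linarith) hdec
  have h2 := mvt l (σ := 1) hT0 ht0 hτm
  rw [hτd] at h2
  have h3 : m ≤ ‖D l ⟨1, τ⟩‖ + m * (3 / 4) := by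
    have h5 := norm_sub_norm_le (D l ⟨1, t0⟩) (D l ⟨1, τ⟩)
    have h6 : ‖D l ⟨1, t0⟩‖ = m := hatt
    have h7 := mul_le_mul_of_nonneg_right hcon (show (0 : ℝ) ≤ 3 / 4 by norm_num)
    linarith
  have h5 : 10 * m / (p * lam / 7) ≤ m / 7 := by
    rw [div_le_iff₀ (by linarith)]
    nlinarith
  have h6 : Sl l ≤ m / 20 := by
    have e1 : Sl l = Ak l * 4 / 3 ^ (l + 1) := by unfold Sl; norm_num
    have e2 : A = Ak l * (l + 2) := by
      rw [hA]
      unfold Ak
      rw [Nat.factorial_succ (l + 1)]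
      push_cast
      ring
    have e3 := Ak_pos l
    have e4 : (9 : ℝ) ≤ 3 ^ (l + 1) := by
      calc (9 : ℝ) = 3 ^ 2 := by norm_num
        _ ≤ 3 ^ (l + 1) := pow_le_pow_right₀ (by norm_num) (by omega)
    have e5 : Ak l * 4 / 3 ^ (l + 1) ≤ Ak l * (4 / 9) := by
      rw [div_le_iff₀ (by positivity)]
      nlinarith
    have e6 : (27 / 8 : ℝ) ≤ μ0 ^ (l + 2) := by
      calc (27 / 8 : ℝ) = (3 / 2) ^ 3 := by norm_num
        _ ≤ (3 / 2) ^ (l + 2) := pow_le_pow_right₀ (by norm_num) (by omega)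
        _ ≤ μ0 ^ (l + 2) := pow_le_pow_left₀ (by norm_num) hμ0 _
    have e7 : Ak l * 3 ≤ A := by
      rw [e2]
      apply mul_le_mul_of_nonneg_left _ e3.le
      linarith
    have e8 : Ak l * 3 * (27 / 8) ≤ A * μ0 ^ (l + 2) := mul_le_mul e7 e6 (by norm_num) hA0.le
    rw [e1]
    linarith
  linarith

/-- monotonicity in the order -/
theorem main : ∃ T0 : ℝ, ∀ T : ℝ, T0 ≤ T → ∀ l1 l2 : ℕ, 0 < l1 → l1 < l2 →
    (l2 : ℝ) ≤ Real.log T / Real.log (Real.log T) → M l1 1 T < M l2 1 T := by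
  obtain ⟨T0, h0⟩ := eventually_atTop.1 main_step
  refine ⟨T0, ?_⟩
  intro T hT l1 l2 h1 h12
  induction l2, h12 using Nat.le_induction with
  | base => 
    intro h
    exact h0 T hT l1 h1 h
  | succ n hn ih =>
    intro h
    have h3 : (n : ℝ) ≤ Real.log T / Real.log (Real.log T) := by
      push_cast at h
      linarith
    exact (ih h3).trans (h0 T hT n (by omega) h)

end Pool.Agent.Q275.ZM
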