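import Pool.Agent.Q275.ZM.Tr

set_option autoImplicit false

/-! Large values of high derivatives on the line `Re s = 11/10` by a mean square. -/

namespace Pool.Agent.Q275.ZM

open Complex Set Filter Topology Q241.MZ

/-- integral of a cosine -/
theorem int_cos_ge {θ X₀ X : ℝ} (hθ : θ ≠ 0) : -(2 / |θ|) ≤ ∫ t in X₀..(X₀ + X), Real.cos (θ * t) := by
  rw [intervalIntegral.integral_comp_mul_left (fun x => Real.cos x) hθ, integral_cos, smul_eq_mul]
  have h1 := Real.neg_one_le_sin (θ * (X₀ + X))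
  have h2 := Real.sin_le_one (θ * (X₀ + X))
  have h3 := Real.neg_one_le_sin (θ * X₀)
  have h4 := Real.sin_le_one (θ * X₀)
  have h5 : |θ⁻¹ * (Real.sin (θ * (X₀ + X)) - Real.sin (θ * X₀))| ≤ 2 / |θ| := by
    rw [abs_mul, abs_inv, inv_mul_eq_div]
    apply div_le_div_of_nonneg_right _ (abs_nonneg _)
    rw [abs_le]
    constructor <;> linarith
  exact (abs_le.1 h5).1

theorem log_diff {m n N : ℕ} (hm : 1 ≤ m) (hn : 1 ≤ n) (hmN : m < N) (hnN : n < N) (hne : m ≠ n) :
    2 / |Real.log m - Real.log n| ≤ 2 * N := by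
  have key : ∀ a b : ℕ, 1 ≤ a → a < b → b < N → 1 / (N : ℝ) ≤ Real.log b - Real.log a := by
    intro a b ha hab hb
    have ha0 : (0 : ℝ) < a := by exact_mod_cast ha
    have hb0 : (0 : ℝ) < b := by exact_mod_cast (by omega : 0 < b)
    rw [← Real.log_div hb0.ne' ha0.ne']
    have h1 := Real.one_sub_inv_le_log_of_pos (show 0 < (b : ℝ) / a by positivity)
    refine le_trans ?_ h1
    rw [inv_div]
    have h2 : (a : ℝ) + 1 ≤ b := by exact_mod_cast hab
    have h3 : (b : ℝ) ≤ N := by exact_mod_cast hb.le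
    have h4 : 1 - (a : ℝ) / b = (b - a) / b := by field_simp
    rw [h4]
    exact div_le_div₀ (by linarith) (by linarith) hb0 h3
  have hN : (0 : ℝ) < N := by exact_mod_cast (by omega : 0 < N)
  have h1 : 1 / (N : ℝ) ≤ |Real.log m - Real.log n| := by
    rcases lt_or_gt_of_ne hne with h | h
    · rw [abs_sub_comm]
      exact (key m n hm h hnN).trans (le_abs_self _)
    · exact (key n m hn h hmN).trans (le_abs_self _)
  have h2 : 0 < |Real.log m - Real.log n| := lt_of_lt_of_le (by positivity) h1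
  rw [div_le_iff₀ h2]
  rw [div_le_iff₀ hN] at h1
  nlinarith

/-- finite Dirichlet polynomial -/
noncomputable def Pn (a : ℕ → ℝ) (N : ℕ) (t : ℝ) : ℂ := ∑ n ∈ Finset.range N, (a n : ℂ) * Complex.exp (-(t * Real.log n) * I)

theorem norm_sq_Pn (a : ℕ → ℝ) (N : ℕ) (t : ℝ) :
    ‖Pn a N t‖ ^ 2 = ∑ m ∈ Finset.range N, ∑ n ∈ Finset.range N, a m * a n * Real.cos ((Real.log m - Real.log n) * t) := by
  have hre : (Pn a N t).re = ∑ n ∈ Finset.range N, a n * Real.cos (t * Real.log n) := by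
    unfold Pn
    rw [re_sum]
    refine Finset.sum_congr rfl fun n _ => ?_
    rw [re_ofReal_mul, show (-((t : ℂ) * (Real.log n : ℂ)) * I) = ((-(t * Real.log n) : ℝ) : ℂ) * I by push_cast; ring,
      Complex.exp_ofReal_mul_I_re, Real.cos_neg]
  have him : (Pn a N t).im = -∑ n ∈ Finset.range N, a n * Real.sin (t * Real.log n) := by
    unfold Pn
    rw [im_sum, ← Finset.sum_neg_distrib]
    refine Finset.sum_congr rfl fun n _ => ?_
    rw [im_ofReal_mul, show (-((t : ℂ) * (Real.log n : ℂ)) * I) = ((-(t * Real.log n) : ℝ) : ℂ) * I by push_cast; ring,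
      Complex.exp_ofReal_mul_I_im, Real.sin_neg]
    ring
  rw [← Complex.normSq_eq_norm_sq, Complex.normSq_apply, hre, him, neg_mul_neg, Finset.sum_mul_sum, Finset.sum_mul_sum,
    ← Finset.sum_add_distrib]
  refine Finset.sum_congr rfl fun m _ => ?_
  rw [← Finset.sum_add_distrib]
  refine Finset.sum_congr rfl fun n _ => ?_
  rw [show (Real.log m - Real.log n) * t = t * Real.log m - t * Real.log n by ring, Real.cos_sub]
  ring

/-- a point with a large value -/
theorem mean_point {a : ℕ → ℝ} (ha : ∀ n, 0 ≤ a n) (ha0 : a 0 = 0) (N : ℕ) {X₀ X : ℝ} (hX : 0 < X) :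
    ∃ t : ℝ, X₀ ≤ t ∧ t ≤ X₀ + X ∧
      ∑ n ∈ Finset.range N, a n ^ 2 - 2 * N * (∑ n ∈ Finset.range N, a n) ^ 2 / X ≤ ‖Pn a N t‖ ^ 2 := by
  by_contra hcon
  push Not at hcon
  set β := ∑ n ∈ Finset.range N, a n ^ 2 - 2 * N * (∑ n ∈ Finset.range N, a n) ^ 2 / X with hβ
  have hcos : ∀ θ : ℝ, Continuous fun t : ℝ => Real.cos (θ * t) := fun θ => by fun_prop
  have hcont : Continuous fun t => ‖Pn a N t‖ ^ 2 := by
    simp only [norm_sq_Pn]
    fun_prop
  have h1 : ∫ t in X₀..(X₀ + X), ‖Pn a N t‖ ^ 2 < ∫ _t in X₀..(X₀ + X), β := by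
    apply intervalIntegral.integral_lt_integral_of_continuousOn_of_le_of_exists_lt (by linarith) hcont.continuousOn
      continuousOn_const
    · intro t ht
      exact (hcon t ht.1.le ht.2).le
    · exact ⟨X₀, ⟨le_rfl, by linarith⟩, hcon X₀ le_rfl (by linarith)⟩
  rw [intervalIntegral.integral_const, smul_eq_mul, add_sub_cancel_left] at h1
  have h2 : ∫ t in X₀..(X₀ + X), ‖Pn a N t‖ ^ 2 = ∑ m ∈ Finset.range N, ∑ n ∈ Finset.range N,
      a m * a n * ∫ t in X₀..(X₀ + X), Real.cos ((Real.log m - Real.log n) * t) := by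
    simp only [norm_sq_Pn]
    rw [intervalIntegral.integral_finsetSum fun m _ => by
      apply Continuous.intervalIntegrable
      fun_prop]
    refine Finset.sum_congr rfl fun m _ => ?_
    rw [intervalIntegral.integral_finsetSum fun n _ => by
      apply Continuous.intervalIntegrable
      fun_prop]
    refine Finset.sum_congr rfl fun n _ => ?_
    rw [intervalIntegral.integral_const_mul]
  have h3 : ∀ m ∈ Finset.range N, ∀ n ∈ Finset.range N, (if m = n then a m ^ 2 * X else 0) - a m * a n * (2 * N) ≤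
      a m * a n * ∫ t in X₀..(X₀ + X), Real.cos ((Real.log m - Real.log n) * t) := by
    intro m hm n hn
    rw [Finset.mem_range] at hm hn
    have hN0 : (0 : ℝ) ≤ N := Nat.cast_nonneg N
    by_cases hmn : m = n
    · subst hmn
      rw [if_pos rfl]
      simp only [sub_self, zero_mul, Real.cos_zero]
      rw [intervalIntegral.integral_const, smul_eq_mul, add_sub_cancel_left]
      have := mul_nonneg (mul_nonneg (ha m) (ha m)) (show (0 : ℝ) ≤ 2 * N by positivity)
      nlinarith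
    · rw [if_neg hmn, zero_sub]
      by_cases hm0 : m = 0
      · subst hm0
        rw [ha0]
        simp
      by_cases hn0 : n = 0
      · subst hn0
        rw [ha0]
        simp
      have hθ : Real.log m - Real.log n ≠ 0 := by
        intro h
        apply hmn
        have h5 := Real.log_injOn_pos (Set.mem_Ioi.2 (Nat.cast_pos.2 (Nat.pos_of_ne_zero hm0)))
          (Set.mem_Ioi.2 (Nat.cast_pos.2 (Nat.pos_of_ne_zero hn0))) (sub_eq_zero.1 h)
        exact_mod_cast h5
      have h5 := int_cos_ge (X₀ := X₀) (X := X) hθ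
      have h6 := log_diff (Nat.one_le_iff_ne_zero.2 hm0) (Nat.one_le_iff_ne_zero.2 hn0) hm hn hmn
      have h7 := mul_le_mul_of_nonneg_left (show -(2 * (N : ℝ)) ≤ ∫ t in X₀..(X₀ + X), Real.cos ((Real.log m - Real.log n) * t)
        by linarith) (mul_nonneg (ha m) (ha n))
      linarith
  have h4 : ∑ m ∈ Finset.range N, ∑ n ∈ Finset.range N, ((if m = n then a m ^ 2 * X else 0) - a m * a n * (2 * N)) =
      (∑ n ∈ Finset.range N, a n ^ 2) * X - (∑ n ∈ Finset.range N, a n) ^ 2 * (2 * N) := by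
    simp only [Finset.sum_sub_distrib]
    congr 1
    · rw [Finset.sum_mul]
      refine Finset.sum_congr rfl fun m hm => ?_
      rw [Finset.sum_ite_eq, if_pos hm]
    · simp only [← Finset.sum_mul, ← Finset.mul_sum]
      ring
  have h5 : (∑ n ∈ Finset.range N, a n ^ 2) * X - (∑ n ∈ Finset.range N, a n) ^ 2 * (2 * N) ≤
      ∫ t in X₀..(X₀ + X), ‖Pn a N t‖ ^ 2 := by
    rw [← h4, h2]
    exact Finset.sum_le_sum fun m hm => Finset.sum_le_sum fun n hn => h3 m hm n hn
  have h6 : X * β = (∑ n ∈ Finset.range N, a n ^ 2) * X - (∑ n ∈ Finset.range N, a n) ^ 2 * (2 * N) := by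
    rw [hβ]
    field_simp
  linarith

/-- upper bound for the factorial -/
theorem fact_le (l : ℕ) (hl : 1 ≤ l) : (l.factorial : ℝ) ≤ Real.exp 1 * l * (l / Real.exp 1) ^ l := by
  induction l, hl using Nat.le_induction with
  | base => 
    simp only [Nat.factorial_one, Nat.cast_one, pow_one, mul_one]
    rw [mul_one_div, div_self (Real.exp_pos 1).ne']
  | succ n hn ih =>
    have hn0 : (0 : ℝ) < n := by exact_mod_cast hn
    have he : 0 < Real.exp 1 := Real.exp_pos 1
    have h1 : Real.exp 1 ≤ (((n : ℝ) + 1) / n) ^ (n + 1) := by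
      rw [← Real.le_log_iff_exp_le (by positivity), Real.log_pow]
      have h2 := Real.one_sub_inv_le_log_of_pos (show 0 < ((n : ℝ) + 1) / n by positivity)
      have h3 : 1 - (((n : ℝ) + 1) / n)⁻¹ = 1 / ((n : ℝ) + 1) := by field_simp; ring
      rw [h3] at h2
      have h4 := mul_le_mul_of_nonneg_left h2 (show (0 : ℝ) ≤ ((n + 1 : ℕ) : ℝ) by positivity)
      push_cast at h4 ⊢
      have h5 : ((n : ℝ) + 1) * (1 / ((n : ℝ) + 1)) = 1 := by field_simp
      linarith
    rw [Nat.factorial_succ]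
    push_cast
    have h6 : (n : ℝ) * (n / Real.exp 1) ^ n ≤ (((n : ℝ) + 1) / Real.exp 1) ^ (n + 1) := by
      have e1 : (((n : ℝ) + 1) / Real.exp 1) ^ (n + 1) = (((n : ℝ) + 1) / n) ^ (n + 1) * (n / Real.exp 1) ^ (n + 1) := by
        rw [← mul_pow]
        congr 1
        field_simp
      rw [e1]
      calc (n : ℝ) * (n / Real.exp 1) ^ n = Real.exp 1 * (n / Real.exp 1) ^ (n + 1) := by
            rw [pow_succ]
            field_simp
        _ ≤ (((n : ℝ) + 1) / n) ^ (n + 1) * (n / Real.exp 1) ^ (n + 1) := mul_le_mul_of_nonneg_right h1 (by positivity)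
    calc ((n : ℝ) + 1) * n.factorial ≤ ((n : ℝ) + 1) * (Real.exp 1 * n * (n / Real.exp 1) ^ n) :=
          mul_le_mul_of_nonneg_left ih (by positivity)
      _ = Real.exp 1 * ((n : ℝ) + 1) * (n * (n / Real.exp 1) ^ n) := by ring
      _ ≤ Real.exp 1 * ((n : ℝ) + 1) * (((n : ℝ) + 1) / Real.exp 1) ^ (n + 1) :=
          mul_le_mul_of_nonneg_left h6 (by positivity)

/-- the coefficients on the line `11/10` -/
noncomputable def ac (l n : ℕ) : ℝ := co l n / (n : ℝ) ^ (11 / 10 : ℝ)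

theorem ac_nonneg (l n : ℕ) : 0 ≤ ac l n := div_nonneg (co_nonneg l n) (Real.rpow_nonneg (Nat.cast_nonneg n) _)

theorem ac_zero (l : ℕ) : ac l 0 = 0 := by
  unfold ac
  rw [Nat.cast_zero, Real.zero_rpow (by norm_num), div_zero]

/-- lower bound of the sum of squares -/
theorem sq_lower (l N : ℕ) (hl : 1 ≤ l) (hN : Real.exp (5 / 3 * l + 1) + 1 ≤ N) :
    Real.exp (-(11 / 5)) * ((5 / 3) ^ l * ((l : ℝ) / Real.exp 1) ^ l) ^ 2 ≤ ∑ n ∈ Finset.range N, ac l n ^ 2 := by
  have hl0 : (1 : ℝ) ≤ l := by exact_mod_cast hl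
  set v : ℝ := 5 / 3 * l with hv
  have hv0 : 0 < v := by positivity
  set S := Finset.Ioc ⌊Real.exp v⌋₊ ⌊Real.exp (v + 1)⌋₊ with hS
  have hsub : S ⊆ Finset.range N := by
    intro n hn
    rw [hS, Finset.mem_Ioc] at hn
    rw [Finset.mem_range]
    have h1 : (n : ℝ) ≤ Real.exp (v + 1) := (Nat.le_floor_iff (Real.exp_pos _).le).1 hn.2
    have h2 : (n : ℝ) < N := by linarith
    exact_mod_cast h2
  have hterm : ∀ n ∈ S, v ^ (2 * l) * Real.exp (-(11 / 5) * (v + 1)) ≤ ac l n ^ 2 := by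
    intro n hn
    rw [hS, Finset.mem_Ioc] at hn
    have h1 : (n : ℝ) ≤ Real.exp (v + 1) := (Nat.le_floor_iff (Real.exp_pos _).le).1 hn.2
    have h2 : Real.exp v < n := Nat.lt_of_floor_lt hn.1
    have hn0 : (0 : ℝ) < n := (Real.exp_pos _).trans h2
    have h3 : v ≤ Real.log n := by
      rw [Real.le_log_iff_exp_le hn0]
      exact h2.le
    have h4 : Real.log n ≤ v + 1 := by
      rw [Real.log_le_iff_le_exp hn0]
      exact h1
    have h5 : v ^ l * Real.exp (-(11 / 10) * (v + 1)) ≤ ac l n := by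
      unfold ac co
      rw [le_div_iff₀ (Real.rpow_pos_of_pos hn0 _)]
      have h6 : (n : ℝ) ^ (11 / 10 : ℝ) ≤ Real.exp (11 / 10 * (v + 1)) := by
        rw [Real.rpow_def_of_pos hn0]
        apply Real.exp_le_exp.2
        linarith
      calc v ^ l * Real.exp (-(11 / 10) * (v + 1)) * (n : ℝ) ^ (11 / 10 : ℝ)
          ≤ v ^ l * Real.exp (-(11 / 10) * (v + 1)) * Real.exp (11 / 10 * (v + 1)) :=
            mul_le_mul_of_nonneg_left h6 (by positivity)
        _ = v ^ l := by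
            rw [mul_assoc, ← Real.exp_add]
            have : -(11 / 10) * (v + 1) + 11 / 10 * (v + 1) = 0 := by ring
            rw [this, Real.exp_zero, mul_one]
        _ ≤ Real.log n ^ l := pow_le_pow_left₀ hv0.le h3 l
    have h7 := pow_le_pow_left₀ (mul_nonneg (pow_nonneg hv0.le l) (Real.exp_pos _).le) h5 2
    refine le_trans (le_of_eq ?_) h7
    have h8 : (v ^ l * Real.exp (-(11 / 10) * (v + 1))) ^ 2 = (v ^ l) ^ 2 * Real.exp (-(11 / 10) * (v + 1)) ^ 2 :=
      mul_pow (v ^ l) _ 2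
    rw [h8, ← pow_mul v l 2, mul_comm l 2, ← Real.exp_nat_mul]
    congr 2
    push_cast
    ring
  have hcard : Real.exp v ≤ (S.card : ℝ) := by
    rw [hS, Nat.card_Ioc]
    have h1 : ⌊Real.exp v⌋₊ ≤ ⌊Real.exp (v + 1)⌋₊ := Nat.floor_le_floor (Real.exp_le_exp.2 (by linarith))
    rw [Nat.cast_sub h1]
    have h2 := Nat.floor_le (Real.exp_pos v).le
    have h3 := Nat.lt_floor_add_one (Real.exp (v + 1))
    have h4 : Real.exp (v + 1) = Real.exp v * Real.exp 1 := Real.exp_add _ _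
    have h5 := Real.exp_one_gt_d9
    have h6 : 2 ≤ Real.exp v := by
      have := Real.add_one_le_exp v
      nlinarith
    nlinarith
  calc Real.exp (-(11 / 5)) * ((5 / 3) ^ l * ((l : ℝ) / Real.exp 1) ^ l) ^ 2
      = Real.exp v * (v ^ (2 * l) * Real.exp (-(11 / 5) * (v + 1))) := by
        have e1 : ((5 / 3 : ℝ) ^ l * ((l : ℝ) / Real.exp 1) ^ l) ^ 2 = v ^ (2 * l) * Real.exp (-(2 * l)) := by
          rw [← mul_pow, ← pow_mul, mul_comm l 2, hv]
          have e2 : (5 / 3 : ℝ) * ((l : ℝ) / Real.exp 1) = (5 / 3 * l) * Real.exp (-1) := by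
            rw [Real.exp_neg]
            field_simp
          rw [e2, mul_pow, ← Real.exp_nat_mul]
          congr 2
          push_cast
          ring
        rw [e1]
        have e3 : Real.exp v * (v ^ (2 * l) * Real.exp (-(11 / 5) * (v + 1))) =
            v ^ (2 * l) * (Real.exp v * Real.exp (-(11 / 5) * (v + 1))) := by ring
        have e4 : Real.exp (-(11 / 5)) * (v ^ (2 * l) * Real.exp (-(2 * l))) =
            v ^ (2 * l) * (Real.exp (-(11 / 5)) * Real.exp (-(2 * l))) := by ring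
        rw [e3, e4, ← Real.exp_add, ← Real.exp_add]
        congr 2
        rw [hv]
        ring
    _ ≤ (S.card : ℝ) * (v ^ (2 * l) * Real.exp (-(11 / 5) * (v + 1))) := mul_le_mul_of_nonneg_right hcard (by positivity)
    _ = ∑ _n ∈ S, (v ^ (2 * l) * Real.exp (-(11 / 5) * (v + 1))) := by rw [Finset.sum_const, nsmul_eq_mul]
    _ ≤ ∑ n ∈ S, ac l n ^ 2 := Finset.sum_le_sum hterm
    _ ≤ ∑ n ∈ Finset.range N, ac l n ^ 2 := Finset.sum_le_sum_of_subset_of_nonneg hsub fun n _ _ => sq_nonneg _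

theorem ac_summable (l : ℕ) : Summable (ac l) := summable_co l (by norm_num)

theorem ac_sum (l N : ℕ) (hl : 1 ≤ l) : ∑ n ∈ Finset.range N, ac l n ≤ Ak l * (11 / 10) * 10 ^ (l + 1) := by
  have h1 := (ac_summable l).sum_le_tsum (Finset.range N) fun n _ => ac_nonneg l n
  have h2 := sum_le l hl (show (0 : ℝ) < 1 / 10 by norm_num)
  rw [show (1 : ℝ) + 1 / 10 = 11 / 10 by norm_num] at h2
  refine (h1.trans h2).trans (le_of_eq ?_)
  rw [div_pow, one_pow]
  field_simp

/-- the tail -/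
theorem ac_tail (l N : ℕ) (hl : 1 ≤ l) (hN : Real.exp (100 * l) ≤ N) :
    ∑' n : ℕ, ac l (n + (N + 1)) ≤ 3 * (l.factorial : ℝ) := by
  have hl0 : (1 : ℝ) ≤ l := by exact_mod_cast hl
  have hN1 : 1 ≤ N := by
    have : (0 : ℝ) < N := (Real.exp_pos _).trans_le hN
    exact_mod_cast this
  have h1 : ∀ n : ℕ, ac l (n + (N + 1)) ≤ (l.factorial : ℝ) * ((1 / 20 : ℝ) ^ l)⁻¹ * (1 / ((n + N + 1 : ℕ) : ℝ) ^ (1 + (1 / 20 : ℝ))) := by
    intro n
    have h2 := term_le l (n + (N + 1)) (lam := 1 / 20) (x := 1 / 10) (by norm_num) (by norm_num)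
    unfold ac
    rw [show (11 / 10 : ℝ) = 1 + 1 / 10 by norm_num]
    refine h2.trans (le_of_eq ?_)
    norm_num [add_assoc]
  have hs1 : Summable fun n : ℕ => ac l (n + (N + 1)) := (summable_nat_add_iff (N + 1)).2 (ac_summable l)
  have hs2 : Summable fun n : ℕ => 1 / ((n + N + 1 : ℕ) : ℝ) ^ (1 + (1 / 20 : ℝ)) := by
    have := (summable_nat_add_iff (N + 1)).2 (summ_pow (show (0 : ℝ) < 1 / 20 by norm_num))
    exact this
  have h3 := Summable.tsum_le_tsum h1 hs1 (hs2.mul_left _)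
  rw [tsum_mul_left] at h3
  have h4 := tail_le (show (0 : ℝ) < 1 / 20 by norm_num) hN1
  have h5 : (N : ℝ) ^ (-(1 / 20) : ℝ) ≤ Real.exp (-(5 * l)) := by
    have hN0 : (0 : ℝ) < N := by exact_mod_cast hN1
    rw [Real.rpow_def_of_pos hN0]
    apply Real.exp_le_exp.2
    have h6 : 100 * (l : ℝ) ≤ Real.log N := by
      rw [Real.le_log_iff_exp_le hN0]
      exact hN
    linarith
  have h6 : Real.exp (-(5 * (l : ℝ))) * 20 ^ l ≤ 3 / 20 := by
    have h7 : Real.exp (-(5 * (l : ℝ))) = (Real.exp (-5)) ^ l := by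
      rw [← Real.exp_nat_mul]
      congr 1
      ring
    rw [h7, ← mul_pow]
    have h8 : Real.exp (-5) * 20 ≤ 3 / 20 := by
      rw [Real.exp_neg]
      have h9 : (400 / 3 : ℝ) ≤ Real.exp 5 := by
        have h10 := Real.exp_one_gt_d9
        have h11 : Real.exp 5 = Real.exp 1 ^ 5 := by rw [← Real.exp_nat_mul]; norm_num
        rw [h11]
        calc (400 / 3 : ℝ) ≤ 2.7 ^ 5 := by norm_num
          _ ≤ Real.exp 1 ^ 5 := by
              apply pow_le_pow_left₀ (by norm_num)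
              linarith
      rw [inv_mul_le_iff₀ (Real.exp_pos 5)]
      linarith
    calc (Real.exp (-5) * 20) ^ l ≤ (Real.exp (-5) * 20) ^ 1 :=
          pow_le_pow_of_le_one (by positivity) (by linarith) hl
      _ ≤ 3 / 20 := by rw [pow_one]; exact h8
  refine h3.trans ?_
  have h7 : ((1 / 20 : ℝ) ^ l)⁻¹ = 20 ^ l := by rw [div_pow, one_pow, one_div, inv_inv]
  rw [h7]
  have h8 : (1 : ℝ) / (1 / 20) = 20 := by norm_num
  rw [h8] at h4
  calc (l.factorial : ℝ) * 20 ^ l * ∑' n : ℕ, 1 / ((n + N + 1 : ℕ) : ℝ) ^ (1 + (1 / 20 : ℝ))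
      ≤ (l.factorial : ℝ) * 20 ^ l * (20 * Real.exp (-(5 * l))) := by
        apply mul_le_mul_of_nonneg_left (h4.trans _) (by positivity)
        exact mul_le_mul_of_nonneg_left h5 (by norm_num)
    _ = (l.factorial : ℝ) * 20 * (Real.exp (-(5 * l)) * 20 ^ l) := by ring
    _ ≤ (l.factorial : ℝ) * 20 * (3 / 20) := mul_le_mul_of_nonneg_left h6 (by positivity)
    _ = 3 * (l.factorial : ℝ) := by ring

/-- the derivative and the polynomial -/
theorem D_ge (l N : ℕ) (hl : 1 ≤ l) (hN : Real.exp (100 * l) ≤ N) (t : ℝ) :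
    ‖Pn (ac l) (N + 1) t‖ - 3 * (l.factorial : ℝ) ≤ ‖D l ⟨11 / 10, t⟩‖ := by
  rw [D_hasSum l (by norm_num), norm_mul, norm_pow, norm_neg, norm_one, one_pow, one_mul]
  set e : ℕ → ℂ := fun n => Complex.exp (-(t * Real.log n) * I) with he
  have hen : ∀ n, ‖e n‖ = 1 := by
    intro n
    have := Complex.norm_exp_ofReal_mul_I (-(t * Real.log n))
    rw [Complex.ofReal_neg, Complex.ofReal_mul] at this
    exact this
  have hle : ∀ n, ‖((ac l n : ℝ) : ℂ) * e n‖ = ac l n := by
    intro n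
    rw [norm_mul, hen, mul_one, Complex.norm_real, Real.norm_eq_abs, abs_of_nonneg (ac_nonneg l n)]
  have hs2 : Summable fun n => ((ac l n : ℝ) : ℂ) * e n := by
    apply Summable.of_norm
    simp only [hle]
    exact ac_summable l
  have hsplit := hs2.sum_add_tsum_nat_add (N + 1)
  have htl : ‖∑' n, ((ac l (n + (N + 1)) : ℝ) : ℂ) * e (n + (N + 1))‖ ≤ 3 * (l.factorial : ℝ) := by
    have h1 : Summable fun n => ‖((ac l (n + (N + 1)) : ℝ) : ℂ) * e (n + (N + 1))‖ := by
      simp only [hle]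
      exact (summable_nat_add_iff (N + 1)).2 (ac_summable l)
    refine (norm_tsum_le_tsum_norm h1).trans ?_
    simp only [hle]
    exact ac_tail l N hl hN
  have h2 : ∑' n : ℕ, ((co l n / (n : ℝ) ^ (11 / 10 : ℝ) : ℝ) : ℂ) * Complex.exp (-(t * Real.log n) * I) =
      Pn (ac l) (N + 1) t + ∑' n, ((ac l (n + (N + 1)) : ℝ) : ℂ) * e (n + (N + 1)) := hsplit.symm
  rw [h2]
  have h3 := norm_sub_norm_le (Pn (ac l) (N + 1) t) (-(∑' n, ((ac l (n + (N + 1)) : ℝ) : ℂ) * e (n + (N + 1))))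
  rw [sub_neg_eq_add, norm_neg] at h3
  linarith

end Pool.Agent.Q275.ZM
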