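import Pool.Agent.Q275.ZM.Dir

set_option autoImplicit false

/-! Transfer of large values from the right of the line `Re s = 1` to the line. -/

namespace Pool.Agent.Q275.ZM

open Complex Set Filter Topology Q241.MZ

/-- the range of the order of derivative -/
def Ord (k : ℕ) (T : ℝ) : Prop := (k : ℝ) ≤ Real.log T / Real.log (Real.log T)

theorem loglog_large (K : ℝ) : ∀ᶠ T : ℝ in atTop, K ≤ Real.log (Real.log T) :=
  (Real.tendsto_log_atTop.comp Real.tendsto_log_atTop).eventually_ge_atTop K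

theorem fac_le : ∀ᶠ T : ℝ in atTop, ∀ k : ℕ, Ord k T → (k.factorial : ℝ) ≤ T := by
  filter_upwards [loglog_large 1, eventually_ge_atTop (1 : ℝ), Real.tendsto_log_atTop.eventually_ge_atTop 1]
    with T h1 h2 h3 k hk
  unfold Ord at hk
  rcases Nat.eq_zero_or_pos k with h0 | h0
  · subst h0
    simpa using h2
  have hk0 : (0 : ℝ) < k := by exact_mod_cast h0
  have hll : 0 < Real.log (Real.log T) := by linarith
  rw [le_div_iff₀ hll] at hk
  have h4 : (k : ℝ) ≤ Real.log T := by nlinarith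
  have h5 : Real.log k ≤ Real.log (Real.log T) := Real.log_le_log hk0 h4
  have h6 : (k : ℝ) * Real.log k ≤ Real.log T := (mul_le_mul_of_nonneg_left h5 hk0.le).trans hk
  have h7 : (k.factorial : ℝ) ≤ (k : ℝ) ^ k := by exact_mod_cast Nat.factorial_le_pow k
  refine h7.trans ?_
  rw [← Real.log_le_log_iff (by positivity) (by linarith), Real.log_pow]
  exact h6

theorem exp_ord_le (K : ℝ) (hK : 0 ≤ K) : ∀ᶠ T : ℝ in atTop, ∀ k : ℕ, Ord k T → Real.exp (K * k) ≤ T := by
  filter_upwards [loglog_large (K + 1), eventually_gt_atTop (0 : ℝ), Real.tendsto_log_atTop.eventually_ge_atTop 1]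
    with T h1 h2 h3 k hk
  unfold Ord at hk
  have hll : 0 < Real.log (Real.log T) := by linarith
  rw [le_div_iff₀ hll] at hk
  rw [← Real.le_log_iff_exp_le h2]
  have : (K + 1) * k ≤ Real.log (Real.log T) * k := mul_le_mul_of_nonneg_right h1 (Nat.cast_nonneg k)
  have hk0 : (0 : ℝ) ≤ k := Nat.cast_nonneg k
  nlinarith

theorem ord_eventually (k : ℕ) : ∀ᶠ T : ℝ in atTop, Ord k T := by
  have h := (Real.isLittleO_log_id_atTop.bound (show (0 : ℝ) < 1 / ((k : ℝ) + 1) by positivity))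
  have h2 := Real.tendsto_log_atTop.eventually h
  filter_upwards [h2, loglog_large 1, Real.tendsto_log_atTop.eventually_ge_atTop 1] with T h3 h4 h5
  unfold Ord
  rw [le_div_iff₀ (by linarith)]
  simp only [id] at h3
  rw [Real.norm_eq_abs, Real.norm_eq_abs, abs_of_nonneg (by linarith), abs_of_nonneg (by linarith), one_div,
    inv_mul_eq_div, le_div_iff₀ (by positivity)] at h3
  nlinarith

/-- bound on the line `Re s = 4` -/
noncomputable def Sl (l : ℕ) : ℝ := Ak l * (1 + 3) / 3 ^ (l + 1)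

theorem norm_gauss (c : ℝ) (w : ℂ) : ‖Complex.exp (c * w ^ 2)‖ = Real.exp (c * (w.re ^ 2 - w.im ^ 2)) := by
  rw [Complex.norm_exp]
  congr 1
  rw [re_ofReal_mul, sq, mul_re]
  ring

theorem transfer : ∀ᶠ T : ℝ in atTop, ∀ l : ℕ, 1 ≤ l → Ord l T → ∀ x t : ℝ, 0 < x → x ≤ 3 → 7 / 5 * T ≤ t → t ≤ 8 / 5 * T →
    ‖D l ⟨1 + x, t⟩‖ ≤ max (M l 1 T) (max (2 * Sl l) 1) := by
  obtain ⟨C, B, hC, hB, hg⟩ := growthU
  filter_upwards [fac_le, eventually_ge_atTop (2 : ℝ), eventually_ge_atTop (100 * (B + 2)),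
    eventually_ge_atTop (2 * (C * 3 ^ B))] with T hfac hT2 hTB hTC l hl hO x t hx hx3 ht1 ht2
  have hT0 : 0 < T := by linarith
  set c : ℝ := (B + 2) * Real.log T / ((2 / 5 * T) ^ 2) with hc
  have hlogT : 0 ≤ Real.log T := Real.log_nonneg (by linarith)
  have hc0 : 0 ≤ c := by positivity
  have he9 : Real.exp (9 * c) ≤ 2 := by
    rw [← Real.le_log_iff_exp_le (by norm_num)]
    have h1 : Real.log T ≤ T := (Real.log_le_sub_one_of_pos hT0).trans (by linarith)
    have h2 : c ≤ (B + 2) * T / ((2 / 5 * T) ^ 2) := by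
      rw [hc]
      apply div_le_div_of_nonneg_right _ (by positivity)
      exact mul_le_mul_of_nonneg_left h1 (by linarith)
    have h3 : (B + 2) * T / ((2 / 5 * T) ^ 2) = 25 / 4 * ((B + 2) / T) := by field_simp; ring
    have h4 : (B + 2) / T ≤ 1 / 100 := by
      rw [div_le_iff₀ hT0]
      linarith
    have := Real.log_two_gt_d9
    linarith
  have hcT : Real.exp (-(c * (2 / 5 * T) ^ 2)) = T ^ (-(B + 2)) := by
    rw [Real.rpow_def_of_pos hT0]
    congr 1
    rw [hc]
    field_simp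
  set K : ℝ := max (M l 1 T) (max (2 * Sl l) 1) with hK
  have hK1 : 1 ≤ K := (le_max_right _ _).trans (le_max_right _ _)
  set g : ℂ → ℂ := fun s => D l s * Complex.exp (c * (s - ⟨1, t⟩) ^ 2) with hgdef
  have hedge : ∀ s : ℂ, 1 ≤ s.re → s.re ≤ 4 → T ≤ s.im → s.im ≤ 2 * T → 2 / 5 * T ≤ |s.im - t| → ‖g s‖ ≤ K := by
    intro s h1 h2 h3 h4 h5
    have h6 := hg l s (by linarith) (by rw [abs_of_pos (by linarith)]; linarith)
    have h7 : (1 + |s.im|) ^ B ≤ 3 ^ B * T ^ B := by
      rw [← Real.mul_rpow (by norm_num) hT0.le]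
      apply Real.rpow_le_rpow (by positivity) _ hB.le
      rw [abs_of_pos (by linarith)]
      linarith
    have h8 : ‖D l s‖ ≤ T * (C * (3 ^ B * T ^ B)) := by
      refine h6.trans ?_
      have := hfac l hO
      gcongr
    have h9 : ‖Complex.exp (c * (s - ⟨1, t⟩) ^ 2)‖ ≤ Real.exp (9 * c) * T ^ (-(B + 2)) := by
      rw [norm_gauss, ← hcT, ← Real.exp_add]
      apply Real.exp_le_exp.2
      simp only [sub_re, sub_im]
      have h10 : (2 / 5 * T) ^ 2 ≤ (s.im - t) ^ 2 := by
        rw [← sq_abs (s.im - t)]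
        exact pow_le_pow_left₀ (by positivity) h5 2
      have h11 : (s.re - 1) ^ 2 ≤ 9 := by nlinarith
      nlinarith [mul_le_mul_of_nonneg_left h10 hc0, mul_le_mul_of_nonneg_left h11 hc0]
    rw [hgdef]
    simp only
    rw [norm_mul]
    calc ‖D l s‖ * ‖Complex.exp (c * (s - ⟨1, t⟩) ^ 2)‖
        ≤ T * (C * (3 ^ B * T ^ B)) * (Real.exp (9 * c) * T ^ (-(B + 2))) := by gcongr
      _ = (C * 3 ^ B) * Real.exp (9 * c) * (T * T ^ B * T ^ (-(B + 2))) := by ring
      _ = (C * 3 ^ B) * Real.exp (9 * c) * T⁻¹ := by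
          congr 1
          nth_rewrite 1 [← Real.rpow_one T]
          rw [← Real.rpow_add hT0, ← Real.rpow_add hT0, ← Real.rpow_neg_one]
          congr 1
          ring
      _ ≤ (C * 3 ^ B) * 2 * T⁻¹ := by gcongr
      _ ≤ 1 := by
          rw [mul_inv_le_iff₀ hT0]
          linarith
      _ ≤ K := hK1
  have hmem : (⟨1 + x, t⟩ : ℂ) ∈ Icc (1 : ℝ) 4 ×ℂ Icc T (2 * T) := by
    rw [mem_reProdIm]
    exact ⟨⟨by simp only; linarith, by simp only; linarith⟩, by simp only; linarith, by simp only; linarith⟩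
  have hmain : ‖g ⟨1 + x, t⟩‖ ≤ K := by
    refine rect_max (by norm_num) (by linarith) ?_ ?_ ?_ ?_ ?_ hmem
    · intro z hz
      rw [mem_reProdIm] at hz
      have hz1 : z ≠ 1 := by
        rintro rfl
        have := hz.2.1
        rw [one_im] at this
        linarith
      have := D_differentiableAt l hz1
      rw [hgdef]
      fun_prop
    · intro y hy
      rw [hgdef]
      simp only
      rw [norm_mul, norm_gauss]
      have h1 := le_M (l := l) (σ := 1) hT0 hy
      have h2 : Real.exp (c * (((⟨1, y⟩ : ℂ) - ⟨1, t⟩).re ^ 2 - ((⟨1, y⟩ : ℂ) - ⟨1, t⟩).im ^ 2)) ≤ 1 := by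
        rw [Real.exp_le_one_iff]
        simp only [sub_re, sub_im, sub_self]
        have : 0 ≤ c * (y - t) ^ 2 := by positivity
        nlinarith
      calc ‖D l ⟨1, y⟩‖ * _ ≤ M l 1 T * 1 := by
            apply mul_le_mul h1 h2 (Real.exp_pos _).le (M_nonneg hT0)
        _ = M l 1 T := mul_one _
        _ ≤ K := le_max_left _ _
    · intro y hy
      rw [hgdef]
      simp only
      rw [norm_mul, norm_gauss]
      have h1 := D_right l hl (show (0 : ℝ) < 3 by norm_num) y
      rw [show (1 : ℝ) + 3 = 4 by norm_num] at h1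
      have h2 : Real.exp (c * (((⟨4, y⟩ : ℂ) - ⟨1, t⟩).re ^ 2 - ((⟨4, y⟩ : ℂ) - ⟨1, t⟩).im ^ 2)) ≤ 2 := by
        refine le_trans (Real.exp_le_exp.2 ?_) he9
        simp only [sub_re, sub_im]
        have : 0 ≤ c * (y - t) ^ 2 := by positivity
        nlinarith
      have h3 : Ak l * 4 / 3 ^ (l + 1) = Sl l := by unfold Sl; norm_num
      rw [h3] at h1
      calc ‖D l ⟨4, y⟩‖ * _ ≤ Sl l * 2 := by
            apply mul_le_mul h1 h2 (Real.exp_pos _).le ((norm_nonneg _).trans h1)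
        _ = 2 * Sl l := mul_comm _ _
        _ ≤ K := (le_max_left _ _).trans (le_max_right _ _)
    · intro y hy
      apply hedge _ hy.1 hy.2 le_rfl (by simp only; linarith)
      simp only
      rw [abs_of_nonpos (by linarith)]
      linarith
    · intro y hy
      apply hedge _ hy.1 hy.2 (by simp only; linarith) le_rfl
      simp only
      rw [abs_of_nonneg (by linarith)]
      linarith
  refine le_trans ?_ hmain
  rw [hgdef]
  simp only
  rw [norm_mul, norm_gauss]
  have h1 : 1 ≤ Real.exp (c * (((⟨1 + x, t⟩ : ℂ) - ⟨1, t⟩).re ^ 2 - ((⟨1 + x, t⟩ : ℂ) - ⟨1, t⟩).im ^ 2)) := by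
    rw [Real.one_le_exp_iff]
    simp only [sub_re, sub_im, sub_self]
    have : 0 ≤ c * (1 + x - 1) ^ 2 := by positivity
    nlinarith
  exact le_mul_of_one_le_right (norm_nonneg _) h1

/-- for a fixed order the maxima tend to infinity -/
theorem M_large_fixed (l : ℕ) (hl : 1 ≤ l) (K : ℝ) : ∀ᶠ T : ℝ in atTop, K ≤ M l 1 T := by
  obtain ⟨δ, hδ0, hδ1, L, hL, h⟩ := large_right l (max K (max (2 * Sl l) 1) + 1)
  filter_upwards [transfer, ord_eventually l, eventually_ge_atTop (5 * L), eventually_gt_atTop (0 : ℝ)] with T h1 h2 h3 h4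
  obtain ⟨t, ht1, ht2, ht3⟩ := h (7 / 5 * T)
  have h5 := ht3.trans (h1 l hl h2 δ t hδ0 (by linarith) ht1 (by linarith))
  have h6 : max K (max (2 * Sl l) 1) < max (M l 1 T) (max (2 * Sl l) 1) := by linarith
  rcases le_total (M l 1 T) (max (2 * Sl l) 1) with h7 | h7
  · rw [max_eq_right h7] at h6
    exact absurd h6 (not_lt.2 (le_max_right _ _))
  · rw [max_eq_left h7] at h6
    exact ((le_max_left _ _).trans_lt h6).le

end Pool.Agent.Q275.ZM
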