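import Pool.Agent.Q275.ZM.Mean

set_option autoImplicit false

/-! A uniform lower bound for the maxima on the line `Re s = 1` of high derivatives. -/

namespace Pool.Agent.Q275.ZM

open Complex Set Filter Topology Q241.MZ

theorem pow_beats : ∀ᶠ l : ℕ in atTop, 1000 * ((l : ℝ) + 2) ^ 3 * (3 / 2) ^ l ≤ (5 / 3) ^ l := by
  have h := tendsto_pow_const_div_const_pow_of_one_lt 3 (show (1 : ℝ) < 10 / 9 by norm_num)
  have h2 := (h.comp (tendsto_add_atTop_nat 2)).eventually (gt_mem_nhds (show (0 : ℝ) < 1 / 2000 by norm_num))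
  filter_upwards [h2] with l hl
  simp only [Function.comp_apply] at hl
  push_cast at hl
  rw [div_lt_iff₀ (by positivity)] at hl
  have h3 : (10 / 9 : ℝ) ^ (l + 2) ≤ 2 * (10 / 9) ^ l := by
    rw [pow_add, mul_comm]
    apply mul_le_mul_of_nonneg_right (by norm_num) (by positivity)
  have h4 : (5 / 3 : ℝ) ^ l = (10 / 9) ^ l * (3 / 2) ^ l := by
    rw [← mul_pow]
    norm_num
  rw [h4]
  apply mul_le_mul_of_nonneg_right _ (by positivity)
  linarith

/-- the error term -/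
theorem err_le {T : ℝ} (hT : 0 < T) (l : ℕ) (hl : 1 ≤ l) (h : Real.exp (118 * l) ≤ T) {N : ℕ}
    (hN : (N : ℝ) ≤ 3 * Real.exp (100 * l)) {S : ℝ} (hS0 : 0 ≤ S) (hS : S ≤ Ak l * (11 / 10) * 10 ^ (l + 1)) :
    2 * N * S ^ 2 / (T / 5) ≤ (l.factorial : ℝ) ^ 2 := by
  have hl0 : (1 : ℝ) ≤ l := by exact_mod_cast hl
  have h1 : S ≤ l.factorial * (Real.exp 1 * (l + 1) * 11 * 10 ^ l) := by
    refine hS.trans (le_of_eq ?_)
    unfold Ak
    rw [Nat.factorial_succ, pow_succ]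
    push_cast
    ring
  have h2 : S ^ 2 ≤ (l.factorial : ℝ) ^ 2 * (900 * Real.exp (7 * l)) := by
    have h3 := pow_le_pow_left₀ hS0 h1 2
    refine h3.trans ?_
    rw [mul_pow]
    apply mul_le_mul_of_nonneg_left _ (by positivity)
    have h4 : ((l : ℝ) + 1) ^ 2 ≤ Real.exp (2 * l) := by
      have h5 := Real.add_one_le_exp (l : ℝ)
      calc ((l : ℝ) + 1) ^ 2 ≤ (Real.exp l) ^ 2 := pow_le_pow_left₀ (by linarith) h5 2
        _ = Real.exp (2 * l) := by rw [← Real.exp_nat_mul]; norm_num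
    have h5 : ((10 : ℝ) ^ l) ^ 2 ≤ Real.exp (5 * l) := by
      have e1 : ((10 : ℝ) ^ l) ^ 2 = 100 ^ l := by
        rw [← pow_mul, mul_comm, pow_mul]
        norm_num
      have e2 : Real.exp (5 * l) = (Real.exp 5) ^ l := by
        rw [← Real.exp_nat_mul]
        congr 1
        ring
      rw [e1, e2]
      apply pow_le_pow_left₀ (by norm_num)
      have h10 := Real.exp_one_gt_d9
      have h11 : Real.exp 5 = Real.exp 1 ^ 5 := by rw [← Real.exp_nat_mul]; norm_num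
      rw [h11]
      calc (100 : ℝ) ≤ 2.7 ^ 5 := by norm_num
        _ ≤ Real.exp 1 ^ 5 := by
            apply pow_le_pow_left₀ (by norm_num)
            linarith
    have h6 : (Real.exp 1) ^ 2 * 121 ≤ 900 := by
      have h10 := Real.exp_one_lt_d9
      have h12 := Real.exp_pos 1
      nlinarith
    calc (Real.exp 1 * (l + 1) * 11 * 10 ^ l) ^ 2 = ((Real.exp 1) ^ 2 * 121) * (((l : ℝ) + 1) ^ 2 * ((10 : ℝ) ^ l) ^ 2) := by ring
      _ ≤ 900 * (Real.exp (2 * l) * Real.exp (5 * l)) := by gcongr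
      _ = 900 * Real.exp (7 * l) := by
          rw [← Real.exp_add]
          congr 2
          ring
  have h3 : 2 * (N : ℝ) * S ^ 2 / (T / 5) = 10 * N * S ^ 2 / T := by field_simp; ring
  rw [h3, div_le_iff₀ hT]
  have h4 : (27000 : ℝ) ≤ Real.exp (11 * l) := by
    have h10 := Real.exp_one_gt_d9
    have h11 : Real.exp 11 = Real.exp 1 ^ 11 := by rw [← Real.exp_nat_mul]; norm_num
    calc (27000 : ℝ) ≤ 2.7 ^ 11 := by norm_num
      _ ≤ Real.exp 1 ^ 11 := by
          apply pow_le_pow_left₀ (by norm_num)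
          linarith
      _ = Real.exp 11 := h11.symm
      _ ≤ Real.exp (11 * l) := Real.exp_le_exp.2 (by linarith)
  calc 10 * (N : ℝ) * S ^ 2 ≤ 10 * (3 * Real.exp (100 * l)) * ((l.factorial : ℝ) ^ 2 * (900 * Real.exp (7 * l))) := by gcongr
    _ = (l.factorial : ℝ) ^ 2 * (27000 * (Real.exp (100 * l) * Real.exp (7 * l))) := by ring
    _ ≤ (l.factorial : ℝ) ^ 2 * (Real.exp (11 * l) * (Real.exp (100 * l) * Real.exp (7 * l))) := by gcongr
    _ = (l.factorial : ℝ) ^ 2 * Real.exp (118 * l) := by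
        rw [← Real.exp_add, ← Real.exp_add]
        congr 2
        ring
    _ ≤ (l.factorial : ℝ) ^ 2 * T := by gcongr

/-- the comparison -/
theorem r_ge {l : ℕ} (hl : 1 ≤ l) (h : 1000 * ((l : ℝ) + 2) ^ 3 * (3 / 2) ^ l ≤ (5 / 3) ^ l) :
    4 + Real.exp 1 * ((l : ℝ) + 2) * (l + 1) * (3 / 2) ^ (l + 2) ≤
      Real.exp (-(11 / 10)) * ((5 / 3) ^ l / (Real.exp 1 * l)) := by
  have hl0 : (1 : ℝ) ≤ l := by exact_mod_cast hl
  have hu := Real.exp_one_lt_d9
  have hlo := Real.exp_one_gt_d9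
  have h1 : Real.exp (-(11 / 10)) * ((5 / 3) ^ l / (Real.exp 1 * l)) = (5 / 3) ^ l / (Real.exp (21 / 10) * l) := by
    rw [show (21 / 10 : ℝ) = 11 / 10 + 1 by norm_num, Real.exp_add, Real.exp_neg]
    field_simp
  have h2 : Real.exp (21 / 10) ≤ 21 := by
    have h3 : Real.exp (21 / 10) ≤ Real.exp 3 := Real.exp_le_exp.2 (by norm_num)
    have h4 : Real.exp 3 = Real.exp 1 ^ 3 := by rw [← Real.exp_nat_mul]; norm_num
    have h5 : Real.exp 1 ^ 3 ≤ 2.75 ^ 3 := pow_le_pow_left₀ (Real.exp_pos 1).le (by linarith) 3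
    have h6 : (2.75 : ℝ) ^ 3 ≤ 21 := by norm_num
    linarith
  rw [h1, le_div_iff₀ (by positivity)]
  set w : ℝ := (3 / 2) ^ l with hw
  have hw1 : 1 ≤ w := one_le_pow₀ (by norm_num)
  set a : ℝ := (l : ℝ) + 2 with ha
  have ha3 : 3 ≤ a := by linarith
  have e1 : (3 / 2 : ℝ) ^ (l + 2) = w * (9 / 4) := by rw [pow_add, ← hw]; norm_num
  rw [e1]
  have h5 : 4 + Real.exp 1 * a * (l + 1) * (w * (9 / 4)) ≤ 11 * (a ^ 2 * w) := by
    have h6 : Real.exp 1 * a * (l + 1) * (w * (9 / 4)) ≤ 7 * (a ^ 2 * w) := by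
      have h7 : a * ((l : ℝ) + 1) ≤ a ^ 2 := by nlinarith
      have h8 : Real.exp 1 * (9 / 4) ≤ 7 := by linarith
      calc Real.exp 1 * a * (l + 1) * (w * (9 / 4)) = (Real.exp 1 * (9 / 4)) * ((a * (l + 1)) * w) := by ring
        _ ≤ 7 * (a ^ 2 * w) := by gcongr
    have h7 : 1 ≤ a ^ 2 * w := by nlinarith
    linarith
  calc (4 + Real.exp 1 * a * (l + 1) * (w * (9 / 4))) * (Real.exp (21 / 10) * l)
      ≤ (11 * (a ^ 2 * w)) * (21 * a) := by
        apply mul_le_mul h5 _ (by positivity) (by positivity)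
        apply mul_le_mul h2 (by linarith) (by linarith) (by norm_num)
    _ = 231 * (a ^ 3 * w) := by ring
    _ ≤ 1000 * a ^ 3 * w := by
        have : 0 ≤ a ^ 3 * w := by positivity
        linarith
    _ ≤ (5 / 3) ^ l := h

/-- the uniform lower bound -/
theorem large_uniform : ∃ l0 : ℕ, ∀ᶠ T : ℝ in atTop, ∀ l : ℕ, l0 ≤ l → Ord l T →
    Ak (l + 1) * (3 / 2) ^ (l + 2) ≤ M l 1 T := by
  obtain ⟨l1, hl1⟩ := eventually_atTop.1 pow_beats
  refine ⟨max l1 1, ?_⟩
  filter_upwards [transfer, exp_ord_le 118 (by norm_num), eventually_gt_atTop (0 : ℝ)] with T h1 h2 hT l hl hO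
  have hl' : 1 ≤ l := (le_max_right _ _).trans hl
  have hl0 : (1 : ℝ) ≤ l := by exact_mod_cast hl'
  have hbeat := hl1 l ((le_max_left _ _).trans hl)
  have hr := r_ge hl' hbeat
  set r := Real.exp (-(11 / 10)) * ((5 / 3) ^ l / (Real.exp 1 * l)) with hrdef
  set N := ⌈Real.exp (100 * l)⌉₊ with hN
  have hN1 : Real.exp (100 * l) ≤ N := Nat.le_ceil _
  have hN2 : (N : ℝ) < Real.exp (100 * l) + 1 := Nat.ceil_lt_add_one (Real.exp_pos _).le
  have hE1 : 1 ≤ Real.exp (100 * (l : ℝ)) := Real.one_le_exp (by positivity)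
  obtain ⟨t, ht1, ht2, ht3⟩ := mean_point (ac_nonneg l) (ac_zero l) (N + 1) (X₀ := 7 / 5 * T) (X := T / 5) (by positivity)
  have hS0 : 0 ≤ ∑ n ∈ Finset.range (N + 1), ac l n := Finset.sum_nonneg fun n _ => ac_nonneg l n
  have herr := err_le hT l hl' (h2 l hO) (N := N + 1) (by push_cast; linarith) hS0 (ac_sum l (N + 1) hl')
  have hsq := sq_lower l (N + 1) hl' (by
    push_cast
    have : Real.exp (5 / 3 * l + 1) ≤ Real.exp (100 * l) := Real.exp_le_exp.2 (by linarith)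
    linarith)
  have hF : 0 < (l.factorial : ℝ) := by exact_mod_cast Nat.factorial_pos l
  have hQ : (l.factorial * r) ^ 2 ≤ Real.exp (-(11 / 5)) * ((5 / 3) ^ l * ((l : ℝ) / Real.exp 1) ^ l) ^ 2 := by
    have h5 := fact_le l hl'
    have h6 : (l.factorial : ℝ) * r ≤ Real.exp (-(11 / 10)) * ((5 / 3) ^ l * ((l : ℝ) / Real.exp 1) ^ l) := by
      rw [hrdef]
      calc (l.factorial : ℝ) * (Real.exp (-(11 / 10)) * ((5 / 3) ^ l / (Real.exp 1 * l)))
          ≤ (Real.exp 1 * l * (l / Real.exp 1) ^ l) * (Real.exp (-(11 / 10)) * ((5 / 3) ^ l / (Real.exp 1 * l))) := by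
            apply mul_le_mul_of_nonneg_right h5 (by positivity)
        _ = Real.exp (-(11 / 10)) * ((5 / 3) ^ l * ((l : ℝ) / Real.exp 1) ^ l) := by
            have : Real.exp 1 * (l : ℝ) ≠ 0 := by positivity
            field_simp
    have h7 : 0 ≤ (l.factorial : ℝ) * r := by positivity
    have h8 := pow_le_pow_left₀ h7 h6 2
    refine h8.trans (le_of_eq ?_)
    rw [mul_pow, ← Real.exp_nat_mul]
    congr 2
    norm_num
  have hr4 : 4 ≤ r := by
    have : 0 ≤ Real.exp 1 * ((l : ℝ) + 2) * (l + 1) * (3 / 2) ^ (l + 2) := by positivity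
    linarith
  have hP : l.factorial * (r - 1) ≤ ‖Pn (ac l) (N + 1) t‖ := by
    have h5 : (l.factorial * (r - 1)) ^ 2 ≤ ‖Pn (ac l) (N + 1) t‖ ^ 2 := by
      refine le_trans ?_ ht3
      have h6 : (l.factorial * (r - 1)) ^ 2 ≤ (l.factorial * r) ^ 2 - (l.factorial : ℝ) ^ 2 := by
        have h7 : (l.factorial * r) ^ 2 - (l.factorial : ℝ) ^ 2 - (l.factorial * (r - 1)) ^ 2 =
            (l.factorial : ℝ) ^ 2 * (2 * r - 2) := by ring
        have h8 : 0 ≤ (l.factorial : ℝ) ^ 2 * (2 * r - 2) := by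
          apply mul_nonneg (by positivity)
          linarith
        linarith
      linarith
    exact le_of_sq_le_sq h5 (norm_nonneg _)
  have hD := D_ge l N hl' hN1 t
  have hD2 := h1 l hl' hO (1 / 10) t (by norm_num) (by norm_num) ht1 (by linarith)
  rw [show (1 : ℝ) + 1 / 10 = 11 / 10 by norm_num] at hD2
  set H := Ak (l + 1) * (3 / 2) ^ (l + 2) with hH
  have hHe : H = l.factorial * (Real.exp 1 * ((l : ℝ) + 2) * (l + 1) * (3 / 2) ^ (l + 2)) := by
    rw [hH]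
    unfold Ak
    rw [Nat.factorial_succ, Nat.factorial_succ]
    push_cast
    ring
  have hHD : H ≤ max (M l 1 T) (max (2 * Sl l) 1) := by
    refine le_trans ?_ hD2
    refine le_trans ?_ hD
    rw [hHe]
    have h5 : l.factorial * (Real.exp 1 * ((l : ℝ) + 2) * (l + 1) * (3 / 2) ^ (l + 2)) ≤ l.factorial * (r - 4) := by
      apply mul_le_mul_of_nonneg_left _ hF.le
      linarith
    linarith
  have hH1 : 1 < H := by
    rw [hHe]
    have h5 : (1 : ℝ) ≤ l.factorial := by exact_mod_cast Nat.factorial_pos l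
    have h6 : (1 : ℝ) ≤ (3 / 2) ^ (l + 2) := one_le_pow₀ (by norm_num)
    have h7 : (1 : ℝ) < Real.exp 1 := by
      have := Real.exp_one_gt_d9
      linarith
    have h8 : 3 ≤ Real.exp 1 * ((l : ℝ) + 2) := by nlinarith
    have h9 : 6 ≤ Real.exp 1 * ((l : ℝ) + 2) * (l + 1) := by nlinarith
    have h10 : 6 ≤ Real.exp 1 * ((l : ℝ) + 2) * (l + 1) * (3 / 2) ^ (l + 2) := by nlinarith
    nlinarith
  have hHS : 2 * Sl l < H := by
    have h5 : Sl l = Ak l * 4 / 3 ^ (l + 1) := by unfold Sl; norm_num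
    have h6 : H = Ak l * ((l + 2) * (3 / 2) ^ (l + 2)) := by
      rw [hHe]
      unfold Ak
      rw [Nat.factorial_succ]
      push_cast
      ring
    rw [h5, h6]
    have h7 := Ak_pos l
    have h8 : (9 : ℝ) ≤ 3 ^ (l + 1) := by
      calc (9 : ℝ) = 3 ^ 2 := by norm_num
        _ ≤ 3 ^ (l + 1) := pow_le_pow_right₀ (by norm_num) (by omega)
    have h9 : 2 * (Ak l * 4 / 3 ^ (l + 1)) ≤ Ak l * (8 / 9) := by
      rw [← mul_div_assoc, div_le_iff₀ (by positivity)]
      nlinarith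
    have h10 : (1 : ℝ) ≤ (3 / 2) ^ (l + 2) := one_le_pow₀ (by norm_num)
    have h11 : 3 ≤ ((l : ℝ) + 2) * (3 / 2) ^ (l + 2) := by nlinarith
    have h12 : Ak l * 3 ≤ Ak l * (((l : ℝ) + 2) * (3 / 2) ^ (l + 2)) := mul_le_mul_of_nonneg_left h11 h7.le
    linarith
  rcases le_total (M l 1 T) (max (2 * Sl l) 1) with h7 | h7
  · rw [max_eq_right h7] at hHD
    exact absurd hHD (not_le.2 (max_lt hHS hH1))
  · rw [max_eq_left h7] at hHD
    exact hHD

end Pool.Agent.Q275.ZM
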